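import Mathlib

namespace Pool.Agent.R309.HeavyBall

/-- f is differentiable, mu-strongly convex, and its derivative is L-Lipschitz. -/
def InClass (μ L : ℝ) (f : ℝ → ℝ) : Prop :=
  Differentiable ℝ f ∧ StrongConvexOn Set.univ μ f ∧ ∀ x y, |deriv f x - deriv f y| ≤ L * |x - y|

/-- The K-periodic sequence x (not constant) is produced by the heavy-ball method with step size
gamma and momentum beta on some f of the class: (x 0, ..., x (K-1)) is a cycle of length K. -/
def IsCycle (μ L γ β : ℝ) (K : ℕ) (x : ℕ → ℝ) : Prop :=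
  (∀ t, x (t + K) = x t) ∧ (∃ i j, x i ≠ x j) ∧
    ∃ f : ℝ → ℝ, InClass μ L f ∧
      ∀ t, x (t + 2) = x (t + 1) - γ * deriv f (x (t + 1)) + β * (x (t + 1) - x t)

/-- The permutation of 0, ..., K-1: 0 goes to 0, j to 2j-1 for 1 <= j <= K/2, and j to 2(K-j) for
K/2 < j <= K-1. -/
def sigma (K j : ℕ) : ℕ := if j = 0 then 0 else if j ≤ K / 2 then 2 * j - 1 else 2 * (K - j)

/-- The points x 0, ..., x (K-1) are ordered according to sigma. -/
def Ordered (K : ℕ) (x : ℕ → ℝ) : Prop :=
  ∀ i j, i < K → j < K → sigma K i < sigma K j → x i ≤ x j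

lemma slope_lower {μ L : ℝ} {f : ℝ → ℝ} (hf : InClass μ L f) {x y : ℝ} (h : x ≤ y) :
    μ * (y - x) ≤ deriv f y - deriv f x := by
  obtain ⟨hd, hc, -⟩ := hf
  have h1 : ConvexOn ℝ Set.univ (fun x => f x - μ / 2 * ‖x‖ ^ 2) := strongConvexOn_iff_convex.mp hc
  have h1' : ConvexOn ℝ Set.univ (fun x => f x - μ / 2 * x ^ 2) := by
    have e : (fun x : ℝ => f x - μ / 2 * ‖x‖ ^ 2) = fun x => f x - μ / 2 * x ^ 2 := by
      funext x; rw [Real.norm_eq_abs, sq_abs]
    rwa [e] at h1
  have hder : ∀ x, HasDerivAt (fun x => f x - μ / 2 * x ^ 2) (deriv f x - μ * x) x := by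
    intro x
    have h3 : HasDerivAt (fun x => f x - μ / 2 * x ^ 2) _ x :=
      (hd x).hasDerivAt.sub ((hasDerivAt_pow 2 x).const_mul (μ / 2))
    exact h3.congr_deriv (by push_cast; ring)
  have hm := h1'.monotoneOn_deriv (fun x _ => (hder x).differentiableAt)
  have := hm (Set.mem_univ x) (Set.mem_univ y) h
  rw [(hder x).deriv, (hder y).deriv] at this
  linarith

lemma inClass_of_slopes {μ L : ℝ} (g : ℝ → ℝ) (hg : Continuous g)
    (h1 : ∀ x y, x ≤ y → μ * (y - x) ≤ g y - g x) (h2 : ∀ x y, x ≤ y → |g y - g x| ≤ L * (y - x)) :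
    ∃ f : ℝ → ℝ, InClass μ L f ∧ ∀ x, deriv f x = g x := by
  have hD : ∀ x, HasDerivAt (fun x => ∫ t in (0 : ℝ)..x, g t) (g x) x := fun x =>
    intervalIntegral.integral_hasDerivAt_right (hg.intervalIntegrable _ _)
      hg.stronglyMeasurable.stronglyMeasurableAtFilter hg.continuousAt
  refine ⟨fun x => ∫ t in (0 : ℝ)..x, g t, ⟨fun x => (hD x).differentiableAt, ?_, ?_⟩,
    fun x => (hD x).deriv⟩
  · rw [strongConvexOn_iff_convex]
    have e : (fun x : ℝ => (∫ t in (0 : ℝ)..x, g t) - μ / 2 * ‖x‖ ^ 2)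
        = fun x => (∫ t in (0 : ℝ)..x, g t) - μ / 2 * x ^ 2 := by
      funext x; rw [Real.norm_eq_abs, sq_abs]
    rw [e]
    have hder : ∀ x, HasDerivAt (fun x => (∫ t in (0 : ℝ)..x, g t) - μ / 2 * x ^ 2)
        (g x - μ * x) x := by
      intro x
      have h3 : HasDerivAt (fun x => (∫ t in (0 : ℝ)..x, g t) - μ / 2 * x ^ 2) _ x :=
        (hD x).sub ((hasDerivAt_pow 2 x).const_mul (μ / 2))
      exact h3.congr_deriv (by push_cast; ring)
    apply Monotone.convexOn_univ_of_deriv (fun x => (hder x).differentiableAt)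
    intro x y hxy
    rw [(hder x).deriv, (hder y).deriv]
    have := h1 x y hxy
    linarith
  · intro x y
    rw [(hD x).deriv, (hD y).deriv]
    rcases le_total x y with h | h
    · have := h2 x y h
      rw [abs_sub_comm, abs_sub_comm x y, abs_of_nonneg (by linarith : (0 : ℝ) ≤ y - x)]
      exact this
    · have := h2 y x h
      rw [abs_of_nonneg (by linarith : (0 : ℝ) ≤ x - y)]
      exact this

/-- If two consecutive points coincide, and the derivative vanishes there, everything is
constant. -/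
lemma const_of_eq {γ β : ℝ} {K : ℕ} (hK : 0 < K) {x : ℕ → ℝ} {f : ℝ → ℝ}
    (hp : ∀ t, x (t + K) = x t)
    (hr : ∀ t, x (t + 2) = x (t + 1) - γ * deriv f (x (t + 1)) + β * (x (t + 1) - x t))
    {s : ℕ} (h1 : x (s + 1) = x s) (h2 : x (s + 2) = x (s + 1)) : ∀ i j, x i = x j := by
  have hg : γ * deriv f (x (s + 1)) = 0 := by
    have := hr s
    rw [h2, h1] at this
    rw [h1]
    linarith
  have h3 : ∀ t, x (s + t) = x s ∧ x (s + t + 1) = x s := by
    intro t
    induction t with
    | zero => exact ⟨rfl, h1⟩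
    | succ t ih =>
      refine ⟨by rw [← add_assoc]; exact ih.2, ?_⟩
      have e := hr (s + t)
      have e2 : s + (t + 1) + 1 = s + t + 2 := by ring
      rw [e2, e, ih.2, ih.1]
      rw [h1] at hg
      linarith
  have hmul : ∀ m t, x (t + m * K) = x t := by
    intro m
    induction m with
    | zero => intro t; simp
    | succ m ih =>
      intro t
      have : t + (m + 1) * K = (t + m * K) + K := by ring
      rw [this, hp, ih]
  have h4 : ∀ i, x i = x s := by
    intro i
    have h5 : i ≤ i + s * K := Nat.le_add_right _ _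
    have h6 : s ≤ i + s * K := by nlinarith
    obtain ⟨t, ht⟩ := Nat.exists_eq_add_of_le h6
    rw [← hmul s i, ht]
    exact (h3 t).1
  intro i j
  rw [h4 i, h4 j]

/-- No ordered cycle of any length K >= 3 when gamma mu is larger than 2 + beta, for beta in
[0,1]. -/
theorem no_ordered {μ L γ β : ℝ} (hγ : 0 < γ) (hβ0 : 0 ≤ β) (hβ1 : β ≤ 1)
    (hμ : 2 + β < γ * μ) {K : ℕ} (hK : 3 ≤ K) {x : ℕ → ℝ} (hx : IsCycle μ L γ β K x) :
    ¬ Ordered K x := by
  intro ho
  obtain ⟨hp, ⟨i, j, hij⟩, f, hf, hr⟩ := hx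
  apply hij
  have hK0 : 0 < K := by omega
  have hs : ∀ {a b : ℝ}, a ≤ b →
      (γ * μ - 1 - β) * (b - a) ≤ ((1 + β) * a - γ * deriv f a) - ((1 + β) * b - γ * deriv f b) := by
    intro a b hab
    have := mul_le_mul_of_nonneg_left (slope_lower hf hab) hγ.le
    nlinarith
  -- short form of the recursion: x (t+2) + beta x t = (1+beta) x(t+1) - gamma f'(x(t+1))
  have hr' : ∀ t, x (t + 2) + β * x t = (1 + β) * x (t + 1) - γ * deriv f (x (t + 1)) := by
    intro t
    rw [hr t]; ring
  rcases Nat.lt_or_ge K 5 with hK5 | hK5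
  · interval_cases K
    · -- K = 3
      have h01 : x 0 ≤ x 1 := ho 0 1 (by norm_num) (by norm_num) (by decide)
      have h12 : x 1 ≤ x 2 := ho 1 2 (by norm_num) (by norm_num) (by decide)
      have r0 := hr' 0
      have r1 := hr' 1
      have r2 := hr' 2
      have p3 : x 3 = x 0 := hp 0
      have p4 : x 4 = x 1 := hp 1
      simp only [zero_add, Nat.reduceAdd] at r0 r1 r2
      rw [p3] at r1 r2
      rw [p4] at r2
      -- r0 : x 2 + beta x 0 = psi (x 1);  r1 : x 0 + beta x 1 = psi (x 2); r2 : x 1 + beta x 2 = psi (x 0)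
      have s01 := hs h01
      have s12 := hs h12
      have e01 : x 1 = x 0 := by
        have h : (γ * μ - 1 - 2 * β) * (x 1 - x 0) ≤ 0 := by
          nlinarith [mul_nonneg (by linarith : (0 : ℝ) ≤ 1 - β) (by linarith : (0 : ℝ) ≤ x 2 - x 1)]
        have h' : 0 < γ * μ - 1 - 2 * β := by linarith
        nlinarith
      have e12 : x 2 = x 1 := by
        have h : (γ * μ - 2 - β) * (x 2 - x 1) ≤ 0 := by
          rw [e01] at s12 r0 r1 r2 ⊢
          nlinarith
        have h' : 0 < γ * μ - 2 - β := by linarith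
        nlinarith
      exact const_of_eq hK0 hp hr (s := 0) e01 e12 i j
    · -- K = 4
      have h01 : x 0 ≤ x 1 := ho 0 1 (by norm_num) (by norm_num) (by decide)
      have h13 : x 1 ≤ x 3 := ho 1 3 (by norm_num) (by norm_num) (by decide)
      have h32 : x 3 ≤ x 2 := ho 3 2 (by norm_num) (by norm_num) (by decide)
      have h02 : x 0 ≤ x 2 := by linarith
      have r1 := hr' 1
      have r3 := hr' 3
      have p4 : x 4 = x 0 := hp 0
      have p5 : x 5 = x 1 := hp 1
      simp only [Nat.reduceAdd] at r1 r3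
      rw [p4, p5] at r3
      -- r1 : x 3 + beta x 1 = psi (x 2); r3 : x 1 + beta x 3 = psi (x 0)
      have s02 := hs h02
      have e02 : x 2 = x 0 := by
        have h : (γ * μ - 1 - β) * (x 2 - x 0) ≤ 0 := by
          nlinarith [mul_nonneg (by linarith : (0 : ℝ) ≤ 1 - β) (by linarith : (0 : ℝ) ≤ x 3 - x 1)]
        have h' : 0 < γ * μ - 1 - β := by linarith
        nlinarith
      have e1 : x 1 = x 0 := by linarith
      have e2 : x 2 = x 1 := by linarith
      exact const_of_eq hK0 hp hr (s := 0) e1 e2 i j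
  · -- K >= 5
    have sg0 : sigma K 0 = 0 := by simp [sigma]
    have sg1 : sigma K 1 = 1 := by
      have : 1 ≤ K / 2 := by omega
      simp [sigma, this]
    have sg2 : sigma K 2 = 3 := by
      have : 2 ≤ K / 2 := by omega
      simp [sigma, this]
    have sg3 : 3 < sigma K 3 := by
      rcases le_or_gt 3 (K / 2) with h | h
      · simp [sigma, h]
      · have h' : ¬ 3 ≤ K / 2 := by omega
        simp only [sigma, h', if_false]
        norm_num
        omega
    have h01 : x 0 ≤ x 1 := ho 0 1 (by omega) (by omega) (by rw [sg0, sg1]; norm_num)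
    have h12 : x 1 ≤ x 2 := ho 1 2 (by omega) (by omega) (by rw [sg1, sg2]; norm_num)
    have h23 : x 2 ≤ x 3 := ho 2 3 (by omega) (by omega) (by rw [sg2]; exact sg3)
    have r0 := hr' 0
    have r1 := hr' 1
    simp only [zero_add, Nat.reduceAdd] at r0 r1
    have s12 := hs h12
    have hb : 0 ≤ β * (x 1 - x 0) := mul_nonneg hβ0 (by linarith)
    have e12 : x 2 = x 1 := by
      have h : (γ * μ - 1 - β) * (x 2 - x 1) ≤ 0 := by nlinarith
      have h' : 0 < γ * μ - 1 - β := by linarith
      nlinarith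
    have e23 : x 3 = x 2 := by
      rw [e12] at r1
      linarith
    exact const_of_eq hK0 hp hr (s := 1) e12 e23 i j

open Real in
/-- A 5-periodic sequence: 0, 1, -phi, phi, -1. -/
noncomputable def xs (t : ℕ) : ℝ :=
  if t % 5 = 0 then 0 else if t % 5 = 1 then 1 else if t % 5 = 2 then - goldenRatio
  else if t % 5 = 3 then goldenRatio else -1

open Real in
lemma phi_bounds : 8 / 5 < goldenRatio ∧ goldenRatio < 13 / 8 := by
  have h := goldenRatio_sq
  have h0 := goldenRatio_pos
  constructor <;> nlinarith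

open Real in
/-- The 5-cycle. -/
theorem exists_five {μ L δ : ℝ} (hμ : 0 < μ) (hδ0 : 0 ≤ δ) (hδ1 : δ < 1)
    (hδ : μ ≤ (1 - δ) * L) :
    IsCycle μ L ((2 + goldenRatio) * (1 - δ) / μ) (1 - δ) 5 xs := by
  have hsq := goldenRatio_sq
  have hφ0 := goldenRatio_pos
  obtain ⟨hφ1, hφ2⟩ := phi_bounds
  set φ := goldenRatio with hφ
  have h1δ : 0 < 1 - δ := by linarith
  set γ := (2 + φ) * (1 - δ) / μ with hγdef
  have hγ : 0 < γ := by positivity
  have hγμ : γ * μ = (2 + φ) * (1 - δ) := by rw [hγdef]; field_simp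
  -- the derivative
  set s : ℝ := μ / (1 - δ) with hs
  have hsμ : s * (1 - δ) = μ := by rw [hs]; field_simp
  have hsL : s ≤ L := by
    rw [hs, div_le_iff₀ h1δ]; linarith
  have hμs : μ ≤ s := by
    have : 0 < s := by positivity
    nlinarith
  set h : ℝ → ℝ := fun x => min (x + 1) 0 + min (max x 0) 1 with hh
  have hmono : ∀ x y, x ≤ y → h x ≤ h y := by
    intro x y hxy
    simp only [hh]
    have h1 : min (x + 1) 0 ≤ min (y + 1) 0 := min_le_min_right _ (by linarith)
    have h2 : min (max x 0) 1 ≤ min (max y 0) 1 := min_le_min_right _ (max_le_max_right _ hxy)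
    linarith
  have hlip : ∀ x y, x ≤ y → h y - h x ≤ y - x := by
    intro x y hxy
    simp only [hh]
    rcases le_total (x + 1) 0 with a1 | a1 <;> rcases le_total (y + 1) 0 with a2 | a2 <;>
    rcases le_total x 0 with a3 | a3 <;> rcases le_total y 0 with a4 | a4 <;>
    rcases le_total x 1 with a5 | a5 <;> rcases le_total y 1 with a6 | a6 <;>
    simp only [a1, a2, a3, a4, a5, a6, min_eq_left, min_eq_right, max_eq_left, max_eq_right,
      zero_le_one] <;> linarith
  set g : ℝ → ℝ := fun x => μ * x + (s - μ) * h x - δ / γ with hg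
  have hgc : Continuous g := by
    simp only [hg, hh]
    fun_prop
  have hslope1 : ∀ x y, x ≤ y → μ * (y - x) ≤ g y - g x := by
    intro x y hxy
    have := mul_le_mul_of_nonneg_left (hmono x y hxy) (by linarith : (0 : ℝ) ≤ s - μ)
    simp only [hg]
    linarith
  have hslope2 : ∀ x y, x ≤ y → |g y - g x| ≤ L * (y - x) := by
    intro x y hxy
    have h3 := hslope1 x y hxy
    have h4 : 0 ≤ μ * (y - x) := mul_nonneg hμ.le (by linarith)
    rw [abs_of_nonneg (by linarith)]
    have h5 := mul_le_mul_of_nonneg_left (hlip x y hxy) (by linarith : (0 : ℝ) ≤ s - μ)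
    have h6 : g y - g x ≤ s * (y - x) := by
      simp only [hg]
      linarith
    have h7 := mul_le_mul_of_nonneg_right hsL (by linarith : (0 : ℝ) ≤ y - x)
    linarith
  obtain ⟨f, hf, hfg⟩ := inClass_of_slopes g hgc hslope1 hslope2
  refine ⟨?_, ⟨0, 1, ?_⟩, f, hf, ?_⟩
  · intro t
    have : (t + 5) % 5 = t % 5 := by omega
    simp only [xs, this]
  · simp [xs]
  · -- values of gamma * g at the five points
    have hγs : γ * (s - μ) = (2 + φ) * δ := by
      have : γ * s = 2 + φ := by
        have h8 : γ * s * (1 - δ) = (2 + φ) * (1 - δ) := by rw [mul_assoc, hsμ, hγμ]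
        exact mul_right_cancel₀ h1δ.ne' h8
      rw [mul_sub, this, hγμ]; ring
    have hγg : ∀ x, γ * g x = (2 + φ) * (1 - δ) * x + (2 + φ) * δ * h x - δ := by
      intro x
      simp only [hg]
      have h9 : γ * (δ / γ) = δ := by field_simp
      calc γ * (μ * x + (s - μ) * h x - δ / γ)
          = (γ * μ) * x + (γ * (s - μ)) * h x - γ * (δ / γ) := by ring
        _ = _ := by rw [hγμ, hγs, h9]
    have v0 : h 0 = 0 := by simp [hh]
    have v1 : h 1 = 1 := by
      simp only [hh]; norm_num
    have v2 : h (-φ) = -φ + 1 := by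
      simp only [hh]
      rw [min_eq_left (by linarith), max_eq_right (by linarith), min_eq_left (by norm_num)]
      ring
    have v3 : h φ = 1 := by
      simp only [hh]
      rw [min_eq_right (by linarith), max_eq_left (by linarith), min_eq_right (by linarith)]
      ring
    have v4 : h (-1) = 0 := by
      simp only [hh]; norm_num
    intro t
    rw [hfg]
    have hlt : t % 5 < 5 := Nat.mod_lt _ (by norm_num)
    have hk : xs (t + 2) = xs (t + 1) - γ * g (xs (t + 1)) + (1 - δ) * (xs (t + 1) - xs t) := by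
      rw [hγg]
      rcases (by omega : t % 5 = 0 ∨ t % 5 = 1 ∨ t % 5 = 2 ∨ t % 5 = 3 ∨ t % 5 = 4) with
        r | r | r | r | r
      · have r1 : (t + 1) % 5 = 1 := by omega
        have r2 : (t + 2) % 5 = 2 := by omega
        simp only [xs, r, r1, r2, ← hφ]
        norm_num
        rw [v1]
        ring
      · have r1 : (t + 1) % 5 = 2 := by omega
        have r2 : (t + 2) % 5 = 3 := by omega
        simp only [xs, r, r1, r2, ← hφ]
        norm_num
        rw [v2]
        linear_combination (-1 : ℝ) * hsq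
      · have r1 : (t + 1) % 5 = 3 := by omega
        have r2 : (t + 2) % 5 = 4 := by omega
        simp only [xs, r, r1, r2, ← hφ]
        norm_num
        rw [v3]
        linear_combination (1 - δ) * hsq
      · have r1 : (t + 1) % 5 = 4 := by omega
        have r2 : (t + 2) % 5 = 0 := by omega
        simp only [xs, r, r1, r2, ← hφ]
        norm_num
        rw [v4]
        ring
      · have r1 : (t + 1) % 5 = 0 := by omega
        have r2 : (t + 2) % 5 = 1 := by omega
        simp only [xs, r, r1, r2, ← hφ]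
        norm_num
        rw [v0]
        ring
    exact hk

open Real in
lemma xs_injOn {i j : ℕ} (hi : i < 5) (hj : j < 5) (h : xs i = xs j) : i = j := by
  obtain ⟨h1, h2⟩ := phi_bounds
  have x0 : xs 0 = 0 := by simp [xs]
  have x1 : xs 1 = 1 := by simp [xs]
  have x2 : xs 2 = - goldenRatio := by simp [xs]
  have x3 : xs 3 = goldenRatio := by simp [xs]
  have x4 : xs 4 = -1 := by simp [xs]
  interval_cases i <;> interval_cases j <;>
    first
      | rfl
      | (exfalso; simp only [x0, x1, x2, x3, x4] at h; linarith)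

end Pool.Agent.R309.HeavyBall
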