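import Mathlib

namespace Pool.Agent.R309.Leg

open Polynomial Finset

/-- All complex zeros are real (the zero polynomial counts). -/
def OnlyRealZeros (p : ℝ[X]) : Prop := p = 0 ∨ ∀ z : ℂ, aeval z p = 0 → z.im = 0

lemma real_split {f : ℝ[X]} (hf0 : f ≠ 0) (hf : ∀ z : ℂ, aeval z f = 0 → z.im = 0) :
    ∃ (c : ℝ) (s : Multiset ℝ), f = C c * (s.map fun a => X - C a).prod := by
  set F : ℂ[X] := f.map (algebraMap ℝ ℂ) with hF
  have hFne : F ≠ 0 := by
    rw [hF, Ne, Polynomial.map_eq_zero]; exact hf0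
  have hroots : ∀ z ∈ F.roots, z = ((z.re : ℝ) : ℂ) := by
    intro z hz
    rw [mem_roots hFne, IsRoot, hF, eval_map_algebraMap] at hz
    exact Complex.ext (by simp) (by simp [hf z hz])
  have hfac : F = C F.leadingCoeff * (F.roots.map fun z => X - C z).prod :=
    (IsAlgClosed.splits F).eq_prod_roots
  refine ⟨f.leadingCoeff, F.roots.map Complex.re, ?_⟩
  apply Polynomial.map_injective (algebraMap ℝ ℂ) (algebraMap ℝ ℂ).injective
  rw [Polynomial.map_mul, map_C, ← hF]
  conv_lhs => rw [hfac]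
  congr 1
  · rw [hF, leadingCoeff_map]
  · rw [Polynomial.map_multiset_prod, Multiset.map_map, Multiset.map_map]
    congr 1
    apply Multiset.map_congr rfl
    intro z hz
    simp only [Function.comp, Polynomial.map_sub, map_X, map_C]
    congr 2
    exact hroots z hz

lemma coeff_ineq_prod (s : Multiset ℝ) :
    0 ≤ ((s.map fun a => X - C a).prod.coeff 1) ^ 2 -
      2 * ((s.map fun a => X - C a).prod.coeff 0) * ((s.map fun a => X - C a).prod.coeff 2) := by
  induction s using Multiset.induction_on with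
  | empty => simp [coeff_one]
  | cons a s ih =>
    rw [Multiset.map_cons, Multiset.prod_cons]
    set P : ℝ[X] := (s.map fun a => X - C a).prod with hP
    have e0 : ((X - C a) * P).coeff 0 = -(a * P.coeff 0) := by
      rw [sub_mul, coeff_sub, coeff_X_mul_zero, coeff_C_mul, zero_sub]
    have e1 : ((X - C a) * P).coeff 1 = P.coeff 0 - a * P.coeff 1 := by
      rw [sub_mul, coeff_sub, coeff_X_mul, coeff_C_mul]
    have e2 : ((X - C a) * P).coeff 2 = P.coeff 1 - a * P.coeff 2 := by
      rw [sub_mul, coeff_sub, coeff_X_mul, coeff_C_mul]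
    rw [e0, e1, e2]
    have h1 : (P.coeff 0 - a * P.coeff 1) ^ 2 - 2 * -(a * P.coeff 0) * (P.coeff 1 - a * P.coeff 2)
        = P.coeff 0 ^ 2 + a ^ 2 * (P.coeff 1 ^ 2 - 2 * P.coeff 0 * P.coeff 2) := by ring
    rw [h1]
    positivity

lemma coeff_ineq {f : ℝ[X]} (hf : OnlyRealZeros f) :
    0 ≤ (f.coeff 1) ^ 2 - 2 * (f.coeff 0) * (f.coeff 2) := by
  rcases hf with hf | hf
  · simp [hf]
  by_cases h0 : f = 0
  · simp [h0]
  obtain ⟨c, s, hs⟩ := real_split h0 hf
  have := coeff_ineq_prod s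
  rw [hs]
  simp only [coeff_C_mul]
  have h2 : 0 ≤ c ^ 2 := sq_nonneg c
  nlinarith [mul_nonneg h2 this]

lemma orz_derivative {f : ℝ[X]} (hf : OnlyRealZeros f) : OnlyRealZeros (derivative f) := by
  rcases hf with hf | hf
  · left; simp [hf]
  by_cases hd : derivative f = 0
  · left; exact hd
  right
  set F : ℂ[X] := f.map (algebraMap ℝ ℂ) with hFdef
  have hFd : derivative F = (derivative f).map (algebraMap ℝ ℂ) := by
    rw [hFdef, derivative_map]
  have hFd0 : derivative F ≠ 0 := by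
    rw [hFd, Ne, Polynomial.map_eq_zero]; exact hd
  have hF0 : F ≠ 0 := by
    intro h; rw [h] at hFd0; simp at hFd0
  have hdeg : 0 < F.degree := by
    by_contra h
    push Not at h
    have h1 : F = C (F.coeff 0) := eq_C_of_degree_le_zero h
    apply hFd0
    rw [h1, derivative_C]
  have hF : F.rootSet ℂ ⊆ {z : ℂ | z.im = 0} := by
    intro z hz
    rw [mem_rootSet] at hz
    apply hf
    have h2 := hz.2
    rw [coe_aeval_eq_eval, hFdef, eval_map_algebraMap] at h2
    exact h2
  have hconv : Convex ℝ {z : ℂ | z.im = 0} := by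
    intro x hx y hy a b _ _ _
    simp only [Set.mem_ofPred_eq] at hx hy ⊢
    simp [hx, hy]
  intro z hz
  have hsub := Polynomial.rootSet_derivative_subset_convexHull_rootSet hdeg
  have hz' : z ∈ (derivative F).rootSet ℂ := by
    rw [mem_rootSet]
    refine ⟨hFd0, ?_⟩
    rw [coe_aeval_eq_eval, hFd, eval_map_algebraMap]
    exact hz
  exact convexHull_min hF hconv (hsub hz')

lemma orz_iterate {f : ℝ[X]} (hf : OnlyRealZeros f) (j : ℕ) :
    OnlyRealZeros (derivative^[j] f) := by
  induction j with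
  | zero => exact hf
  | succ j ih => rw [Function.iterate_succ_apply']; exact orz_derivative ih

/-- Newton-Laguerre inequality for coefficients. -/
lemma newton {f : ℝ[X]} (hf : OnlyRealZeros f) (j : ℕ) :
    ((j : ℝ) + 2) * (f.coeff j * f.coeff (j + 2)) ≤ ((j : ℝ) + 1) * (f.coeff (j + 1)) ^ 2 := by
  have h := coeff_ineq (orz_iterate hf j)
  simp only [coeff_iterate_derivative, nsmul_eq_mul] at h
  have e0 : (((0 + j).descFactorial j : ℕ) : ℝ) = (j.factorial : ℝ) := by
    rw [zero_add, Nat.descFactorial_self]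
  have e1 : (((1 + j).descFactorial j : ℕ) : ℝ) = ((j : ℝ) + 1) * (j.factorial : ℝ) := by
    have : (1 + j).descFactorial j = (j + 1).factorial := by
      have := Nat.factorial_mul_descFactorial (n := 1 + j) (k := j) (by omega)
      rw [show 1 + j - j = 1 by omega] at this
      simp at this
      rw [this, add_comm]
    rw [this, Nat.factorial_succ]; push_cast; ring
  have e2 : (((2 + j).descFactorial j : ℕ) : ℝ) = ((j : ℝ) + 2) * ((j : ℝ) + 1) * (j.factorial : ℝ) / 2 := by
    have : 2 * (2 + j).descFactorial j = (j + 2).factorial := by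
      have := Nat.factorial_mul_descFactorial (n := 2 + j) (k := j) (by omega)
      rw [show 2 + j - j = 2 by omega] at this
      simp at this
      rw [this, add_comm]
    have h2 : (2 : ℝ) * ((2 + j).descFactorial j : ℕ) = ((j + 2).factorial : ℝ) := by exact_mod_cast this
    rw [Nat.factorial_succ, Nat.factorial_succ] at h2
    push_cast at h2
    linarith
  rw [e0, e1, e2, zero_add, add_comm 1 j, add_comm 2 j] at h
  have hp : (0 : ℝ) < (j.factorial : ℝ) ^ 2 * ((j : ℝ) + 1) := by positivity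
  have h3 : 0 ≤ ((j.factorial : ℝ) ^ 2 * ((j : ℝ) + 1)) *
      (((j : ℝ) + 1) * (f.coeff (j + 1)) ^ 2 - ((j : ℝ) + 2) * (f.coeff j * f.coeff (j + 2))) := by
    nlinarith [h]
  have h4 := (mul_nonneg_iff_of_pos_left hp).mp h3
  linarith

lemma orz_comp {f : ℝ[X]} (hf : OnlyRealZeros f) (a b : ℝ) (ha : a ≠ 0) :
    OnlyRealZeros (f.comp (C a * X + C b)) := by
  rcases hf with hf | hf
  · left; simp [hf]
  right
  intro z hz
  rw [aeval_comp] at hz
  have h1 := hf _ hz
  have h2 : (aeval z (C a * X + C b : ℝ[X]) : ℂ) = (a : ℂ) * z + (b : ℂ) := by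
    simp
  rw [h2] at h1
  simp at h1
  rcases h1 with h1 | h1
  · exact absurd h1 ha
  · exact h1

/-! ### The operator L -/

/-- The Legendre operator in the variable t = (1-x)/2. -/
noncomputable def L : ℝ[X] →ₗ[ℝ] ℝ[X] :=
  derivative ∘ₗ (LinearMap.mulLeft ℝ (X ^ 2 - X : ℝ[X])) ∘ₗ derivative

lemma L_apply (f : ℝ[X]) : L f = derivative ((X ^ 2 - X) * derivative f) := rfl

lemma coeff_L (f : ℝ[X]) (j : ℕ) :
    (L f).coeff j = (j : ℝ) * (j + 1) * f.coeff j - ((j : ℝ) + 1) ^ 2 * f.coeff (j + 1) := by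
  rw [L_apply, coeff_derivative]
  have h1 : ((X ^ 2 - X : ℝ[X]) * derivative f).coeff (j + 1)
      = (j : ℝ) * f.coeff j - ((j : ℝ) + 1) * f.coeff (j + 1) := by
    have : (X ^ 2 - X : ℝ[X]) * derivative f = X * (X * derivative f) - X * derivative f := by ring
    rw [this, coeff_sub, coeff_X_mul, coeff_X_mul, coeff_derivative]
    rcases j with _ | j
    · simp
    · rw [coeff_X_mul, coeff_derivative]
      push_cast
      ring
  rw [h1]
  ring

/-- The shifted Legendre polynomials, over the reals. -/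
noncomputable def sl (k : ℕ) : ℝ[X] := (shiftedLegendre k).map (Int.castRingHom ℝ)

lemma coeff_sl (k j : ℕ) : (sl k).coeff j = (-1) ^ j * (k.choose j : ℝ) * ((k + j).choose k : ℝ) := by
  rw [sl, coeff_map, coeff_shiftedLegendre]
  simp

lemma L_sl (k : ℕ) : L (sl k) = C ((k : ℝ) * (k + 1)) * sl k := by
  ext j
  rw [coeff_L, coeff_C_mul, coeff_sl, coeff_sl]
  have h1 : (k.choose (j + 1) : ℝ) * (j + 1) = (k.choose j : ℝ) * ((k : ℝ) - j) := by
    rcases le_or_gt j k with h | h
    · have := Nat.choose_succ_right_eq k j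
      have h2 : ((k - j : ℕ) : ℝ) = (k : ℝ) - j := by push_cast [Nat.cast_sub h]; ring
      rw [← h2]
      exact_mod_cast this
    · rw [Nat.choose_eq_zero_of_lt h, Nat.choose_eq_zero_of_lt (by omega)]; simp
  have h2 : ((k + (j + 1)).choose k : ℝ) * (j + 1) = ((k + j).choose k : ℝ) * ((k : ℝ) + j + 1) := by
    have e1 : (k + (j + 1)).choose k = (k + j + 1).choose (j + 1) := by
      rw [← Nat.choose_symm_of_eq_add (by omega : k + j + 1 = k + (j + 1))]
      rfl
    have e2 : (k + j).choose k = (k + j).choose j := by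
      rw [← Nat.choose_symm_of_eq_add (by omega : k + j = k + j)]
    have := Nat.add_one_mul_choose_eq (k + j) j
    rw [e1, e2]
    have h3 : ((k + j + 1 : ℕ) : ℝ) * ((k + j).choose j : ℝ)
      = ((k + j + 1).choose (j + 1) : ℝ) * ((j + 1 : ℕ) : ℝ) := by exact_mod_cast this
    push_cast at h3
    linarith
  have : ((j : ℝ) + 1) ^ 2 * ((-1) ^ (j + 1) * (k.choose (j + 1) : ℝ) * ((k + (j + 1)).choose k : ℝ))
      = - ((-1) ^ j * ((k.choose (j + 1) : ℝ) * (j + 1)) * (((k + (j + 1)).choose k : ℝ) * (j + 1))) := by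
    ring
  rw [this, h1, h2]
  ring

lemma natDegree_sl (k : ℕ) : (sl k).natDegree = k := by
  rw [sl, natDegree_map_eq_of_injective (RingHom.injective_int _), natDegree_shiftedLegendre]

/-- Eigenfunctions of L are determined by the top coefficient. -/
lemma eigen_unique {k : ℕ} {f : ℝ[X]} (hf : L f = C ((k : ℝ) * (k + 1)) * f)
    (h0 : ∀ j, k ≤ j → f.coeff j = 0) : f = 0 := by
  have key : ∀ i, i ≤ k → f.coeff (k - i) = 0 := by
    intro i
    induction i with
    | zero => intro _; exact h0 k le_rfl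
    | succ i ih =>
      intro hi
      have h1 := ih (by omega)
      have h2 := congrArg (fun p => p.coeff (k - (i + 1))) hf
      simp only [coeff_L, coeff_C_mul] at h2
      have e : k - (i + 1) + 1 = k - i := by omega
      rw [e, h1] at h2
      have hlt : ((k - (i + 1) : ℕ) : ℝ) < k := by
        exact_mod_cast (by omega : k - (i + 1) < k)
      have hnn : (0 : ℝ) ≤ ((k - (i + 1) : ℕ) : ℝ) := Nat.cast_nonneg _
      have h3 : ((k : ℝ) - ((k - (i + 1) : ℕ) : ℝ)) * ((k : ℝ) + ((k - (i + 1) : ℕ) : ℝ) + 1)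
          * f.coeff (k - (i + 1)) = 0 := by
        linear_combination (-1 : ℝ) * h2
      have h4 : ((k : ℝ) - ((k - (i + 1) : ℕ) : ℝ)) * ((k : ℝ) + ((k - (i + 1) : ℕ) : ℝ) + 1) ≠ 0 := by
        apply mul_ne_zero
        · linarith
        · have : (0 : ℝ) ≤ k := Nat.cast_nonneg _
          linarith
      exact (mul_eq_zero.mp h3).resolve_left h4
  ext j
  rw [coeff_zero]
  rcases le_or_gt k j with h | h
  · exact h0 j h
  · have := key (k - j) (by omega)
    rwa [show k - (k - j) = j by omega] at this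

/-! ### The operator E -/

/-- g n = n! / (1/2)_n -/
noncomputable def g (n : ℕ) : ℝ := ∏ i ∈ range n, ((i : ℝ) + 1) / ((i : ℝ) + 1 / 2)
/-- h j = (3/2)_j / j! -/
noncomputable def h (n : ℕ) : ℝ := ∏ i ∈ range n, ((i : ℝ) + 3 / 2) / ((i : ℝ) + 1)
/-- w N = (-1/2)_N / N! -/
noncomputable def w (n : ℕ) : ℝ := ∏ i ∈ range n, ((i : ℝ) - 1 / 2) / ((i : ℝ) + 1)

lemma g_succ (n : ℕ) : g (n + 1) = g n * (((n : ℝ) + 1) / ((n : ℝ) + 1 / 2)) := by
  rw [g, prod_range_succ]; rfl
lemma h_succ (n : ℕ) : h (n + 1) = h n * (((n : ℝ) + 3 / 2) / ((n : ℝ) + 1)) := by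
  rw [h, prod_range_succ]; rfl
lemma w_succ (n : ℕ) : w (n + 1) = w n * (((n : ℝ) - 1 / 2) / ((n : ℝ) + 1)) := by
  rw [w, prod_range_succ]; rfl
lemma g_zero : g 0 = 1 := by simp [g]
lemma h_zero : h 0 = 1 := by simp [h]
lemma w_zero : w 0 = 1 := by simp [w]

lemma h_pos (n : ℕ) : 0 < h n := by
  unfold h
  apply prod_pos
  intro i _
  positivity

/-- Image of t^n. -/
noncomputable def En (n : ℕ) : ℝ[X] := ∑ j ∈ range (n + 1), C (g n * h j * w (n - j)) * X ^ j

lemma coeff_En (n j : ℕ) : (En n).coeff j = if j ≤ n then g n * h j * w (n - j) else 0 := by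
  rw [En, finsetSum_coeff]
  simp only [coeff_C_mul, coeff_X_pow]
  by_cases hj : j ≤ n
  · rw [if_pos hj, sum_eq_single j]
    · simp
    · intro b _ hb
      simp [Ne.symm hb]
    · intro hj'
      exact absurd (mem_range.mpr (by omega)) hj'
  · rw [if_neg hj]
    apply sum_eq_zero
    intro b hb
    have : j ≠ b := by
      rintro rfl
      exact hj (by have := mem_range.mp hb; omega)
    simp [this]

/-- The linear operator E. -/
noncomputable def E : ℝ[X] →ₗ[ℝ] ℝ[X] :=
  Polynomial.lsum (fun n => LinearMap.toSpanSingleton ℝ ℝ[X] (En n))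

lemma E_monomial (n : ℕ) (a : ℝ) : E (monomial n a) = C a * En n := by
  simp [E, Polynomial.lsum_apply, smul_eq_C_mul]

lemma E_X_pow (n : ℕ) : E (X ^ n) = En n := by
  have := E_monomial n 1
  rwa [monomial_one_right_eq_X_pow, C_1, one_mul] at this

lemma L_X_pow (n : ℕ) : L (X ^ n) = C ((n : ℝ) * (n + 1)) * X ^ n - C ((n : ℝ) ^ 2) * X ^ (n - 1) := by
  ext j
  rw [coeff_L]
  simp only [coeff_sub, coeff_C_mul, coeff_X_pow]
  rcases n with _ | n
  · rcases j with _ | j <;> simp
  · have e : n + 1 - 1 = n := rfl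
    rw [e]
    by_cases h1 : j = n + 1
    · subst h1; simp
    · by_cases h2 : j = n
      · subst h2; simp
      · have h3 : ¬ (j + 1 = n + 1) := by omega
        simp [h1, h2]

lemma E_comm_monomial (n : ℕ) : E (L (X ^ n)) = L (E (X ^ n)) := by
  rw [L_X_pow, E_X_pow, map_sub]
  have e1 : E (C ((n : ℝ) * (n + 1)) * X ^ n) = C ((n : ℝ) * (n + 1)) * En n := by
    rw [← smul_eq_C_mul, map_smul, E_X_pow, smul_eq_C_mul]
  have e2 : E (C ((n : ℝ) ^ 2) * X ^ (n - 1)) = C ((n : ℝ) ^ 2) * En (n - 1) := by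
    rw [← smul_eq_C_mul, map_smul, E_X_pow, smul_eq_C_mul]
  rw [e1, e2]
  ext j
  rw [coeff_sub, coeff_C_mul, coeff_C_mul, coeff_L, coeff_En, coeff_En, coeff_En]
  rcases Nat.lt_trichotomy j n with hj | hj | hj
  · obtain ⟨N, rfl⟩ : ∃ N, n = j + N + 1 := ⟨n - j - 1, by omega⟩
    have a1 : j ≤ j + N + 1 := by omega
    have a2 : j ≤ j + N + 1 - 1 := by omega
    have a3 : j + 1 ≤ j + N + 1 := by omega
    have b1 : j + N + 1 - j = N + 1 := by omega
    have b2 : j + N + 1 - 1 - j = N := by omega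
    have b3 : j + N + 1 - (j + 1) = N := by omega
    have b4 : j + N + 1 - 1 = j + N := by omega
    rw [if_pos a1, if_pos a2, if_pos a3, b1, b2, b3, b4, g_succ, h_succ, w_succ]
    push_cast
    have c1 : ((j : ℝ) + N + 1 / 2) ≠ 0 := by positivity
    have c2 : ((j : ℝ) + 1) ≠ 0 := by positivity
    have c3 : ((N : ℝ) + 1) ≠ 0 := by positivity
    have c4 : ((j : ℝ) + N + 1) ≠ 0 := by positivity
    field_simp
    ring
  · subst hj
    have a3 : ¬ (j + 1 ≤ j) := by omega
    rw [if_pos le_rfl, if_neg a3]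
    rcases j with _ | j
    · simp
    · have a2 : ¬ (j + 1 ≤ j + 1 - 1) := by omega
      rw [if_neg a2]; ring
  · have a1 : ¬ (j ≤ n) := by omega
    have a2 : ¬ (j ≤ n - 1) := by omega
    have a3 : ¬ (j + 1 ≤ n) := by omega
    rw [if_neg a1, if_neg a2, if_neg a3]; ring

lemma E_comm : E ∘ₗ L = L ∘ₗ E := by
  apply Polynomial.lhom_ext'
  intro n
  apply LinearMap.ext_ring
  simp only [LinearMap.comp_apply, monomial_one_right_eq_X_pow]
  exact E_comm_monomial n

lemma E_comm_apply (f : ℝ[X]) : E (L f) = L (E f) := by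
  have := congrArg (fun T => T f) E_comm
  simpa using this

lemma coeff_E_of_natDegree_le {f : ℝ[X]} {k : ℕ} (hf : f.natDegree ≤ k) :
    (E f).coeff k = g k * h k * f.coeff k ∧ ∀ j, k < j → (E f).coeff j = 0 := by
  have h1 : E f = ∑ n ∈ range (k + 1), C (f.coeff n) * En n := by
    conv_lhs => rw [f.as_sum_range' (k + 1) (by omega)]
    rw [map_sum]
    simp only [E_monomial]
  rw [h1]
  constructor
  · rw [finsetSum_coeff, sum_range_succ, sum_eq_zero, zero_add, coeff_C_mul, coeff_En, if_pos le_rfl,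
      Nat.sub_self, w_zero]
    · ring
    · intro n hn
      rw [mem_range] at hn
      rw [coeff_C_mul, coeff_En, if_neg (by omega), mul_zero]
  · intro j hj
    rw [finsetSum_coeff]
    apply sum_eq_zero
    intro n hn
    rw [mem_range] at hn
    rw [coeff_C_mul, coeff_En, if_neg (by omega), mul_zero]

lemma gh (k : ℕ) : g k * h k = 2 * (k : ℝ) + 1 := by
  induction k with
  | zero => simp [g_zero, h_zero]
  | succ k ih =>
    rw [g_succ, h_succ]
    have c1 : ((k : ℝ) + 1 / 2) ≠ 0 := by positivity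
    have c2 : ((k : ℝ) + 1) ≠ 0 := by positivity
    have : g k * (((k : ℝ) + 1) / ((k : ℝ) + 1 / 2)) * (h k * (((k : ℝ) + 3 / 2) / ((k : ℝ) + 1)))
        = (g k * h k) * (((k : ℝ) + 3 / 2) / ((k : ℝ) + 1 / 2)) := by
      field_simp
    rw [this, ih]
    push_cast
    field_simp
    ring

lemma E_sl (k : ℕ) : E (sl k) = C (2 * (k : ℝ) + 1) * sl k := by
  have hdeg : (sl k).natDegree ≤ k := (natDegree_sl k).le
  obtain ⟨h1, h2⟩ := coeff_E_of_natDegree_le hdeg
  have h3 : E (sl k) - C (2 * (k : ℝ) + 1) * sl k = 0 := by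
    apply eigen_unique (k := k)
    · rw [map_sub, ← E_comm_apply, L_sl, ← smul_eq_C_mul, ← smul_eq_C_mul, ← smul_eq_C_mul,
        map_smul, map_smul, L_sl, smul_sub, smul_comm, smul_eq_C_mul, smul_eq_C_mul, smul_eq_C_mul,
        smul_eq_C_mul]
    · intro j hj
      rw [coeff_sub, coeff_C_mul]
      rcases hj.eq_or_lt with hj | hj
      · subst hj
        rw [h1, gh]; ring
      · rw [h2 j hj, coeff_eq_zero_of_natDegree_lt (by omega)]; ring
  exact sub_eq_zero.mp h3

end Pool.Agent.R309.Leg
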