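import Mathlib
import Pool.Agent.R309.LegendreA

namespace Pool.Agent.R309.Leg

open Polynomial Finset Filter Topology

/-! ### Decomposition -/

/-- The polynomial X (X+1). -/
noncomputable def mm : ℝ[X] := X ^ 2 + X

lemma decomp (Q : ℝ[X]) : ∃ A B : ℝ[X], Q = A.comp mm + (2 * X + 1) * B.comp mm := by
  induction Q using Polynomial.induction_on with
  | C a => exact ⟨C a, 0, by simp⟩
  | add p q hp hq =>
    obtain ⟨A, B, h1⟩ := hp
    obtain ⟨A', B', h2⟩ := hq
    refine ⟨A + A', B + B', ?_⟩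
    rw [add_comp, add_comp]
    conv_lhs => rw [h1, h2]
    ring
  | monomial n a h1 =>
    obtain ⟨A, B, h1⟩ := h1
    refine ⟨C (1 / 2) * ((4 * X + 1) * B - A), C (1 / 2) * (A - B), ?_⟩
    have e : (C a * X ^ (n + 1) : ℝ[X]) = (C a * X ^ n) * X := by ring
    rw [e, h1]
    simp only [mul_comp, sub_comp, add_comp, C_comp, X_comp, one_comp, ofNat_comp]
    have hc : (C (1 / 2 : ℝ) : ℝ[X]) * 2 = 1 := by
      rw [← C_ofNat, ← C_mul]; norm_num
    unfold mm
    linear_combination (- (A.comp (X ^ 2 + X)) * X - B.comp (X ^ 2 + X) * (2 * X + 1) * X) * hc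

/-! ### The limit polynomials -/

/-- The operator giving the limits: R goes to (X+1)(X R - (X+3/2) R(X+1)). -/
noncomputable def Dop : ℝ[X] →ₗ[ℝ] ℝ[X] :=
  (LinearMap.mulLeft ℝ (X + 1 : ℝ[X])) ∘ₗ
    (LinearMap.mulLeft ℝ (X : ℝ[X]) -
      (LinearMap.mulLeft ℝ (X + C (3 / 2) : ℝ[X])) ∘ₗ (taylor (1 : ℝ)))

lemma Dop_apply (R : ℝ[X]) : Dop R = (X + 1) * (X * R - (X + C (3 / 2)) * taylor 1 R) := rfl

lemma Dop_eval (R : ℝ[X]) (x : ℝ) :
    (Dop R).eval x = (x + 1) * (x * R.eval x - (x + 3 / 2) * R.eval (x + 1)) := by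
  rw [Dop_apply, taylor_apply]
  simp [eval_comp]

lemma coeff_Dop_X_pow (i n : ℕ) (hn : i < n) :
    (Dop (X ^ i)).coeff n = if n = i + 1 then -((i : ℝ) + 3 / 2) else 0 := by
  have hu : ∀ n, (X * X ^ i - (X + C (3 / 2)) * (X + 1) ^ i : ℝ[X]).coeff (n + 1)
      = (if n = i then 1 else 0) - (i.choose n : ℝ) - 3 / 2 * (i.choose (n + 1) : ℝ) := by
    intro n
    rw [coeff_sub, coeff_X_mul, coeff_X_pow, add_mul, coeff_add, coeff_X_mul, coeff_C_mul,
      coeff_X_add_one_pow, coeff_X_add_one_pow]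
    ring
  have hu0 : (X * X ^ i - (X + C (3 / 2)) * (X + 1) ^ i : ℝ[X]).coeff 0 = - 3 / 2 := by
    rw [coeff_sub, coeff_X_mul_zero, add_mul, coeff_add, coeff_X_mul_zero, coeff_C_mul,
      coeff_X_add_one_pow]
    norm_num
  have ht : taylor (1 : ℝ) (X ^ i) = (X + 1) ^ i := by rw [taylor_X_pow, C_1]
  rw [Dop_apply, ht]
  obtain ⟨k, rfl⟩ : ∃ k, n = k + 1 := ⟨n - 1, by omega⟩
  rw [add_mul, one_mul, coeff_add, coeff_X_mul, hu]
  by_cases hk : k = i
  · subst hk
    rw [if_pos rfl, if_pos rfl, Nat.choose_self, Nat.choose_succ_self]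
    rcases k with _ | k
    · rw [hu0]; norm_num
    · rw [hu, if_neg (by omega), Nat.choose_self]
      have : ((k + 1).choose k : ℝ) = (k : ℝ) + 1 := by
        rw [Nat.choose_succ_self_right]; push_cast; ring
      rw [this]
      push_cast
      ring
  · have hki : i < k := by omega
    rw [if_neg hk, if_neg (by omega), Nat.choose_eq_zero_of_lt hki,
      Nat.choose_eq_zero_of_lt (by omega)]
    obtain ⟨l, rfl⟩ : ∃ l, k = l + 1 := ⟨k - 1, by omega⟩
    rw [hu]
    by_cases hl : l = i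
    · subst hl
      rw [if_pos rfl, Nat.choose_self, Nat.choose_succ_self]; norm_num
    · rw [if_neg hl, Nat.choose_eq_zero_of_lt (by omega), Nat.choose_eq_zero_of_lt (by omega)]
      norm_num

lemma coeff_Dop {R : ℝ[X]} {d : ℕ} (hR : R.natDegree ≤ d) :
    (Dop R).coeff (d + 1) = -((d : ℝ) + 3 / 2) * R.coeff d ∧ (Dop R).natDegree ≤ d + 1 := by
  have h1 : ∀ n, d < n → (Dop R).coeff n = if n = d + 1 then -((d : ℝ) + 3 / 2) * R.coeff d else 0 := by
    intro n hn
    conv_lhs => rw [R.as_sum_range' (d + 1) (by omega)]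
    rw [map_sum, finsetSum_coeff, sum_range_succ]
    have e : ∀ i, (Dop (monomial i (R.coeff i))).coeff n = R.coeff i * (Dop (X ^ i)).coeff n := by
      intro i
      rw [← C_mul_X_pow_eq_monomial, ← smul_eq_C_mul, map_smul, coeff_smul, smul_eq_mul]
    rw [sum_eq_zero, zero_add, e, coeff_Dop_X_pow _ _ hn]
    · split_ifs <;> ring
    · intro i hi
      rw [mem_range] at hi
      rw [e, coeff_Dop_X_pow i n (by omega), if_neg (by omega), mul_zero]
  constructor
  · rw [h1 (d + 1) (by omega), if_pos rfl]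
  · rw [natDegree_le_iff_coeff_eq_zero]
    intro n hn
    rw [h1 n (by omega), if_neg (by omega)]

lemma Dop_iter (i : ℕ) : ((Dop ^ i) 1).natDegree ≤ i ∧ ((Dop ^ i) 1).coeff i ≠ 0 := by
  induction i with
  | zero => simp
  | succ i ih =>
    obtain ⟨h1, h2⟩ := ih
    obtain ⟨h3, h4⟩ := coeff_Dop h1
    rw [pow_succ', Module.End.mul_apply]
    refine ⟨h4, ?_⟩
    rw [h3]
    apply mul_ne_zero _ h2
    have : (0 : ℝ) ≤ i := Nat.cast_nonneg i
    linarith

lemma RB_ne_zero {B : ℝ[X]} (hB : B ≠ 0) : (aeval Dop B) 1 ≠ 0 := by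
  intro h
  have h1 := congrArg (fun p => p.coeff B.natDegree) h
  simp only [aeval_eq_sum_range, LinearMap.sum_apply, LinearMap.smul_apply, coeff_zero,
    finsetSum_coeff, coeff_smul, smul_eq_mul] at h1
  rw [sum_range_succ, sum_eq_zero, zero_add] at h1
  · exact mul_ne_zero (by rwa [coeff_natDegree, Ne, leadingCoeff_eq_zero]) (Dop_iter _).2 h1
  · intro i hi
    rw [mem_range] at hi
    rw [coeff_eq_zero_of_natDegree_lt (lt_of_le_of_lt (Dop_iter i).1 hi), mul_zero]

/-! ### Limits of coefficients -/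

/-- The normalised coefficients converge. -/
def Lim (F : ℕ → ℝ[X]) (c : ℕ → ℝ) : Prop :=
  ∀ j, Tendsto (fun n : ℕ => -(2 * (n : ℝ) - 1) * (F n).coeff j) atTop (𝓝 (c j))

lemma lim_L {F : ℕ → ℝ[X]} {c : ℕ → ℝ} (hF : Lim F c) :
    Lim (fun n => L (F n)) (fun j => (j : ℝ) * (j + 1) * c j - ((j : ℝ) + 1) ^ 2 * c (j + 1)) := by
  intro j
  have := ((hF j).const_mul ((j : ℝ) * (j + 1))).sub ((hF (j + 1)).const_mul (((j : ℝ) + 1) ^ 2))
  refine this.congr (fun n => ?_)
  rw [coeff_L]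
  ring

lemma gw (n : ℕ) : -(2 * (n : ℝ) - 1) * (g n * w n) = 1 := by
  induction n with
  | zero => simp [g_zero, w_zero]
  | succ n ih =>
    rw [g_succ, w_succ]
    have c1 : ((n : ℝ) + 1 / 2) ≠ 0 := by positivity
    have c2 : ((n : ℝ) + 1) ≠ 0 := by positivity
    have : g n * (((n : ℝ) + 1) / ((n : ℝ) + 1 / 2)) * (w n * (((n : ℝ) - 1 / 2) / ((n : ℝ) + 1)))
        = (g n * w n) * (((n : ℝ) - 1 / 2) / ((n : ℝ) + 1 / 2)) := by
      field_simp
    rw [this]
    push_cast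
    have e : -(2 * ((n : ℝ) + 1) - 1) * (g n * w n * (((n : ℝ) - 1 / 2) / ((n : ℝ) + 1 / 2)))
        = -(2 * (n : ℝ) - 1) * (g n * w n) := by
      field_simp
      ring
    rw [e, ih]

lemma lim_gw (j : ℕ) :
    Tendsto (fun n : ℕ => -(2 * (n : ℝ) - 1) * (g n * w (n - j))) atTop (𝓝 1) := by
  induction j with
  | zero =>
    refine tendsto_const_nhds.congr (fun n => ?_)
    rw [Nat.sub_zero, gw]
  | succ j ih =>
    have h1 : Tendsto (fun n : ℕ => ((n : ℝ) - j) / ((n : ℝ) - j - 3 / 2)) atTop (𝓝 1) := by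
      have h2 : Tendsto (fun n : ℕ => 1 + (3 / 2) / ((n : ℝ) - j - 3 / 2)) atTop (𝓝 (1 + 0)) := by
        apply tendsto_const_nhds.add
        apply Tendsto.const_div_atTop
        have : Tendsto (fun n : ℕ => (n : ℝ)) atTop atTop := tendsto_natCast_atTop_atTop
        have h3 := tendsto_atTop_add_const_right atTop (-(j : ℝ) - 3 / 2) this
        refine h3.congr (fun n => by ring)
      rw [add_zero] at h2
      refine h2.congr' ?_
      filter_upwards [eventually_gt_atTop (j + 2)] with n hn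
      have : ((j : ℝ) + 2) < n := by exact_mod_cast hn
      obtain ⟨d, hd⟩ : ∃ d : ℝ, d = (n : ℝ) - j - 3 / 2 := ⟨_, rfl⟩
      have h4 : d ≠ 0 := by
        have : 0 < d := by linarith
        exact this.ne'
      have h5 : (n : ℝ) - j = d + 3 / 2 := by linarith
      rw [← hd, h5]
      field_simp
    have h5 := ih.mul h1
    rw [mul_one] at h5
    refine h5.congr' ?_
    filter_upwards [eventually_gt_atTop (j + 2)] with n hn
    obtain ⟨m, rfl⟩ : ∃ m, n = m + 1 + j := ⟨n - 1 - j, by omega⟩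
    have e1 : m + 1 + j - j = m + 1 := by omega
    have e2 : m + 1 + j - (j + 1) = m := by omega
    rw [e1, e2, w_succ]
    have hm : (1 : ℝ) < m := by exact_mod_cast (by omega : 1 < m)
    have h4 : ((m : ℝ) - 1 / 2) ≠ 0 := by
      have : 0 < ((m : ℝ) - 1 / 2) := by linarith
      exact this.ne'
    have h6 : ((m : ℝ) + 1) ≠ 0 := by positivity
    push_cast
    have h7 : (m : ℝ) + 1 + j - j - 3 / 2 = (m : ℝ) - 1 / 2 := by ring
    have h8 : (m : ℝ) + 1 + j - j = (m : ℝ) + 1 := by ring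
    rw [h7, h8]
    have h9 : (2 * (m : ℝ) - 1) ≠ 0 := by
      have : 0 < (2 * (m : ℝ) - 1) := by linarith
      exact this.ne'
    field_simp

lemma lim_E : Lim (fun n => E (X ^ n)) h := by
  intro j
  have h1 := (lim_gw j).mul_const (h j)
  rw [one_mul] at h1
  refine h1.congr' ?_
  filter_upwards [eventually_ge_atTop j] with n hn
  rw [E_X_pow, coeff_En, if_pos hn]
  ring

lemma lim_congr {F : ℕ → ℝ[X]} {c c' : ℕ → ℝ} (hF : Lim F c) (h : ∀ j, c j = c' j) : Lim F c' := by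
  intro j
  rw [← h j]
  exact hF j

lemma lim_pow (i : ℕ) :
    Lim (fun n => (L ^ i) (E (X ^ n))) (fun j => h j * ((Dop ^ i) 1).eval (j : ℝ)) := by
  induction i with
  | zero =>
    intro j
    have := lim_E j
    simpa using this
  | succ i ih =>
    simp only [pow_succ', Module.End.mul_apply]
    refine lim_congr (lim_L ih) (fun j => ?_)
    rw [Dop_eval, h_succ]
    push_cast
    have : ((j : ℝ) + 1) ≠ 0 := by positivity
    field_simp

lemma lim_B (B : ℝ[X]) :
    Lim (fun n => (aeval L B) (E (X ^ n))) (fun j => h j * ((aeval Dop B) 1).eval (j : ℝ)) := by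
  intro j
  have h1 : Tendsto (fun n : ℕ => ∑ i ∈ range (B.natDegree + 1),
      B.coeff i * (-(2 * (n : ℝ) - 1) * ((L ^ i) (E (X ^ n))).coeff j)) atTop
      (𝓝 (∑ i ∈ range (B.natDegree + 1), B.coeff i * (h j * ((Dop ^ i) 1).eval (j : ℝ)))) :=
    tendsto_finsetSum _ (fun i _ => (lim_pow i j).const_mul _)
  have e1 : ∑ i ∈ range (B.natDegree + 1), B.coeff i * (h j * ((Dop ^ i) 1).eval (j : ℝ))
      = h j * ((aeval Dop B) 1).eval (j : ℝ) := by
    rw [aeval_eq_sum_range, LinearMap.sum_apply, eval_finsetSum, mul_sum]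
    apply sum_congr rfl
    intro i _
    rw [LinearMap.smul_apply, eval_smul, smul_eq_mul]
    ring
  rw [e1] at h1
  refine h1.congr (fun n => ?_)
  show _ = -(2 * (n : ℝ) - 1) * ((aeval L B) (E (X ^ n))).coeff j
  rw [aeval_eq_sum_range, LinearMap.sum_apply, finsetSum_coeff, mul_sum]
  apply sum_congr rfl
  intro i _
  rw [LinearMap.smul_apply, coeff_smul, smul_eq_mul]
  ring

/-- Coefficients which are eventually zero. -/
lemma ev_zero_pow (i j : ℕ) : ∀ᶠ n : ℕ in atTop, ((L ^ i) (X ^ n)).coeff j = 0 := by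
  induction i generalizing j with
  | zero =>
    filter_upwards [eventually_gt_atTop j] with n hn
    simp [coeff_X_pow, hn.ne]
  | succ i ih =>
    filter_upwards [ih j, ih (j + 1)] with n h1 h2
    rw [pow_succ', Module.End.mul_apply, coeff_L, h1, h2]; ring

lemma lim_A (A : ℝ[X]) : Lim (fun n => (aeval L A) (X ^ n)) (fun _ => 0) := by
  intro j
  have h1 : ∀ᶠ n : ℕ in atTop, ∀ i ∈ range (A.natDegree + 1), ((L ^ i) (X ^ n)).coeff j = 0 :=
    (Filter.eventually_all_finset _).mpr (fun i _ => ev_zero_pow i j)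
  refine tendsto_const_nhds.congr' ?_
  filter_upwards [h1] with n hn
  rw [aeval_eq_sum_range, LinearMap.sum_apply, finsetSum_coeff, sum_eq_zero, mul_zero]
  intro i hi
  rw [LinearMap.smul_apply, coeff_smul, hn i hi, smul_zero]

/-- The operator with eigenvalues A(k(k+1)) + (2k+1) B(k(k+1)). -/
noncomputable def G (A B : ℝ[X]) : ℝ[X] →ₗ[ℝ] ℝ[X] := aeval L A + (aeval L B) ∘ₗ E

lemma aeval_L_sl (A : ℝ[X]) (k : ℕ) :
    (aeval L A) (sl k) = C (A.eval ((k : ℝ) * (k + 1))) * sl k := by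
  have hne : sl k ≠ 0 := by
    intro h0
    have := coeff_sl k 0
    rw [h0] at this
    simp at this
  have hv : Module.End.HasEigenvector L ((k : ℝ) * (k + 1)) (sl k) := by
    rw [Module.End.hasEigenvector_iff, Module.End.mem_eigenspace_iff]
    exact ⟨by rw [L_sl, smul_eq_C_mul], hne⟩
  rw [Module.End.aeval_apply_of_hasEigenvector hv, smul_eq_C_mul]

lemma G_sl (A B : ℝ[X]) (k : ℕ) :
    G A B (sl k) = C ((A.comp mm + (2 * X + 1) * B.comp mm).eval (k : ℝ)) * sl k := by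
  have e : (aeval L B) (C (2 * (k : ℝ) + 1) * sl k)
      = C (2 * (k : ℝ) + 1) * (C (B.eval ((k : ℝ) * (k + 1))) * sl k) := by
    rw [← smul_eq_C_mul, map_smul, aeval_L_sl, smul_eq_C_mul]
  rw [G, LinearMap.add_apply, LinearMap.comp_apply, E_sl, aeval_L_sl, e, ← mul_assoc, ← C_mul,
    ← add_mul, ← C_add]
  congr 2
  simp only [eval_add, eval_mul, eval_comp, mm, eval_pow, eval_X, eval_ofNat, eval_one]
  have : (k : ℝ) ^ 2 + k = (k : ℝ) * (k + 1) := by ring
  rw [this]

/-- The limits of the Newton inequalities. -/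
lemma limit_newton {A B : ℝ[X]} (hG : ∀ n : ℕ, OnlyRealZeros (G A B (X ^ n))) (j : ℕ) :
    ((j : ℝ) + 2) * ((h j * ((aeval Dop B) 1).eval (j : ℝ)) *
      (h (j + 2) * ((aeval Dop B) 1).eval ((j + 2 : ℕ) : ℝ))) ≤
    ((j : ℝ) + 1) * (h (j + 1) * ((aeval Dop B) 1).eval ((j + 1 : ℕ) : ℝ)) ^ 2 := by
  have hlim : ∀ j, Tendsto (fun n : ℕ => -(2 * (n : ℝ) - 1) * (G A B (X ^ n)).coeff j) atTop
      (𝓝 (h j * ((aeval Dop B) 1).eval (j : ℝ))) := by
    intro j
    have := (lim_A A j).add (lim_B B j)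
    rw [zero_add] at this
    refine this.congr (fun n => ?_)
    rw [G, LinearMap.add_apply, LinearMap.comp_apply, coeff_add]
    ring
  have h1 := ((hlim j).mul (hlim (j + 2))).const_mul ((j : ℝ) + 2)
  have h2 := ((hlim (j + 1)).pow 2).const_mul ((j : ℝ) + 1)
  refine le_of_tendsto_of_tendsto' h1 h2 (fun n => ?_)
  have h3 := newton (hG n) j
  have h4 : (0 : ℝ) ≤ (-(2 * (n : ℝ) - 1)) ^ 2 := sq_nonneg _
  have h5 := mul_le_mul_of_nonneg_left h3 h4
  calc ((j : ℝ) + 2) * ((-(2 * (n : ℝ) - 1) * (G A B (X ^ n)).coeff j) *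
        (-(2 * (n : ℝ) - 1) * (G A B (X ^ n)).coeff (j + 2)))
      = (-(2 * (n : ℝ) - 1)) ^ 2 * (((j : ℝ) + 2) * ((G A B (X ^ n)).coeff j * (G A B (X ^ n)).coeff (j + 2))) := by
        ring
    _ ≤ _ := h5
    _ = _ := by ring

/-- The final contradiction. -/
lemma no_newton {R : ℝ[X]} (hR : R ≠ 0)
    (hN : ∀ j : ℕ, ((j : ℝ) + 2) * ((h j * R.eval (j : ℝ)) * (h (j + 2) * R.eval ((j + 2 : ℕ) : ℝ))) ≤
      ((j : ℝ) + 1) * (h (j + 1) * R.eval ((j + 1 : ℕ) : ℝ)) ^ 2) : False := by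
  set c : ℕ → ℝ := fun j => h j * R.eval (j : ℝ) with hc
  have hnat : Tendsto (fun n : ℕ => (n : ℝ)) atTop atTop := tendsto_natCast_atTop_atTop
  -- eventually nonzero
  have hne : ∀ᶠ j : ℕ in atTop, R.eval (j : ℝ) ≠ 0 := by
    have := hnat.eventually (Polynomial.eventually_atTop_not_isRoot R hR)
    filter_upwards [this] with j hj
    exact hj
  -- ratio
  have hrat : Tendsto (fun j : ℕ => R.eval ((j : ℝ) + 1) / R.eval (j : ℝ)) atTop (𝓝 1) := by
    have h1 := Polynomial.div_tendsto_atTop_leadingCoeff_div_of_degree_eq (taylor (1 : ℝ) R) R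
      (degree_taylor R 1)
    rw [leadingCoeff_taylor, div_self (by rwa [Ne, leadingCoeff_eq_zero])] at h1
    refine (h1.comp hnat).congr (fun j => ?_)
    simp [taylor_eval]
  have hrat2 : Tendsto (fun j : ℕ => ((j : ℝ) + 3 / 2) / ((j : ℝ) + 1)) atTop (𝓝 1) := by
    have h2 : Tendsto (fun n : ℕ => 1 + (1 / 2) / ((n : ℝ) + 1)) atTop (𝓝 (1 + 0)) := by
      apply tendsto_const_nhds.add
      apply Tendsto.const_div_atTop
      exact tendsto_atTop_add_const_right atTop 1 hnat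
    rw [add_zero] at h2
    refine h2.congr (fun n => ?_)
    have : ((n : ℝ) + 1) ≠ 0 := by positivity
    field_simp
    ring
  have hq : Tendsto (fun j : ℕ => c (j + 1) / c j) atTop (𝓝 1) := by
    have h3 := hrat2.mul hrat
    rw [mul_one] at h3
    refine h3.congr' ?_
    filter_upwards [hne] with j hj
    simp only [hc]
    rw [h_succ]
    have h4 : h j ≠ 0 := (h_pos j).ne'
    push_cast
    field_simp
  have hhalf : ∀ᶠ j : ℕ in atTop, 1 / 2 < c (j + 1) / c j := hq.eventually_const_lt (by norm_num)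
  obtain ⟨J, hJ⟩ := eventually_atTop.mp (hhalf.and hne)
  have hc0 : ∀ j, J ≤ j → c j ≠ 0 := fun j hj => mul_ne_zero (h_pos j).ne' (hJ j hj).2
  have hpos : ∀ j, J ≤ j → 0 < c j * c (j + 1) := by
    intro j hj
    have h1 : 0 < c (j + 1) / c j := by have := (hJ j hj).1; linarith
    have h2 : c j * c (j + 1) = (c (j + 1) / c j) * (c j) ^ 2 := by
      have := hc0 j hj
      field_simp
    rw [h2]
    have := hc0 j hj
    positivity
  have hmono : ∀ j, J ≤ j → ((j : ℝ) + 2) * (c (j + 2) / c (j + 1)) ≤ ((j : ℝ) + 1) * (c (j + 1) / c j) := by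
    intro j hj
    have h1 := hN j
    have h2 := hpos j hj
    have h3 := hc0 j hj
    have h4 := hc0 (j + 1) (by omega)
    have e1 : ((j : ℝ) + 2) * (c (j + 2) / c (j + 1)) = ((j : ℝ) + 2) * (c j * c (j + 2)) / (c j * c (j + 1)) := by
      field_simp
    have e2 : ((j : ℝ) + 1) * (c (j + 1) / c j) = ((j : ℝ) + 1) * (c (j + 1)) ^ 2 / (c j * c (j + 1)) := by
      field_simp
    rw [e1, e2]
    exact div_le_div_of_nonneg_right h1 h2.le
  have hbd : ∀ i : ℕ, ((J + i : ℕ) + 1 : ℝ) * (c (J + i + 1) / c (J + i)) ≤ ((J : ℝ) + 1) * (c (J + 1) / c J) := by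
    intro i
    induction i with
    | zero => simp
    | succ i ih =>
      have := hmono (J + i) (by omega)
      have e : J + (i + 1) = J + i + 1 := by ring
      rw [e]
      push_cast at this ih ⊢
      have e2 : ((J : ℝ) + i + 1 + 1) = ((J : ℝ) + i + 2) := by ring
      rw [e2]
      exact this.trans ih
  obtain ⟨i, hi⟩ := exists_nat_gt (2 * (((J : ℝ) + 1) * (c (J + 1) / c J)))
  have h1 := hbd i
  have h2 := (hJ (J + i) (by omega)).1
  have h3 : ((i : ℝ)) * (1 / 2) ≤ ((J + i : ℕ) + 1 : ℝ) * (c (J + i + 1) / c (J + i)) := by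
    push_cast
    have hi0 : (0 : ℝ) ≤ i := Nat.cast_nonneg i
    have hJ0 : (0 : ℝ) ≤ J := Nat.cast_nonneg J
    nlinarith
  linarith

theorem B_zero {A B : ℝ[X]} (hG : ∀ n : ℕ, OnlyRealZeros (G A B (X ^ n))) : B = 0 := by
  by_contra hB
  exact no_newton (RB_ne_zero hB) (limit_newton hG)

end Pool.Agent.R309.Leg
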