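import Mathlib

/-!
Arithmetic of a possible power relation `α = ± η ^ m` in a complex cubic field
(used for `MP_75c9b5_nt`).
-/

set_option autoImplicit false

namespace Pool.Agent.R309.UnitSum

/-- The power sums of the roots of `X^3 + u X^2 + v X + 1`. -/
def ps (u v : ℤ) : ℕ → ℤ
  | 0 => 3
  | 1 => -u
  | 2 => u ^ 2 - 2 * v
  | (k + 3) => -u * ps u v (k + 2) - v * ps u v (k + 1) - ps u v k

/-- `r`, `z`, `conj z` are the roots of `X^3 + u X^2 + v X + 1`, with `r` in `(-1, 0)`. -/
structure Rt (u v : ℤ) (r : ℝ) (z : ℂ) : Prop where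
  im : z.im ≠ 0
  neg : r < 0
  gt : -1 < r
  nrm : r * Complex.normSq z = -1
  hu : (u : ℝ) = -(r + 2 * z.re)
  hv : (v : ℝ) = Complex.normSq z + 2 * r * z.re

namespace Rt

variable {u v : ℤ} {r : ℝ} {z : ℂ}

lemma n_gt (h : Rt u v r z) : 1 < Complex.normSq z := by
  have h1 := h.nrm; have h2 := h.neg; have h3 := h.gt
  by_contra hc
  have : 0 ≤ Complex.normSq z := Complex.normSq_nonneg z
  nlinarith

lemma factor (h : Rt u v r z) (t : ℝ) :
    t ^ 3 + u * t ^ 2 + v * t + 1 = (t - r) * ((t - z.re) ^ 2 + z.im ^ 2) := by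
  have h1 := h.nrm
  have hn : Complex.normSq z = z.re * z.re + z.im * z.im := Complex.normSq_apply z
  rw [h.hu, h.hv]
  linear_combination h1 + (t - r) * hn

lemma pos_fac (h : Rt u v r z) (t : ℝ) : 0 < (t - z.re) ^ 2 + z.im ^ 2 := by
  have := h.im
  positivity

lemma uv1 (h : Rt u v r z) : u + 1 ≤ v := by
  have h1 := h.factor (-1)
  have h2 := h.pos_fac (-1)
  have h3 := h.gt
  have : (u : ℝ) - v < 0 := by nlinarith
  have : (u : ℝ) < v := by linarith
  exact_mod_cast this

lemma uv2 (h : Rt u v r z) : -1 ≤ u + v := by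
  have h1 := h.factor 1
  have h2 := h.pos_fac 1
  have h3 := h.neg
  have : (-2 : ℝ) < u + v := by nlinarith
  have : (-2 : ℤ) < u + v := by exact_mod_cast this
  omega

lemma v_nonneg (h : Rt u v r z) : 0 ≤ v := by
  have := h.uv1; have := h.uv2; omega

lemma n_cubic (h : Rt u v r z) :
    (Complex.normSq z) ^ 3 = v * (Complex.normSq z) ^ 2 - u * Complex.normSq z + 1 := by
  have h1 := h.nrm
  set n := Complex.normSq z with hn
  rw [h.hu, h.hv]
  linear_combination (-(2 * z.re * n) - 1) * h1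

lemma n_ge (h : Rt u v r z) : Complex.normSq z + 1 ≤ (Complex.normSq z) ^ 3 := by
  have h1 := h.n_cubic
  have h2 := h.n_gt
  have h3 : (u : ℝ) + 1 ≤ v := by exact_mod_cast h.uv1
  have h4 : (0 : ℝ) ≤ v := by exact_mod_cast h.v_nonneg
  set n := Complex.normSq z
  have h5 : 0 ≤ v * (n * (n - 1)) := by
    apply mul_nonneg h4; nlinarith
  nlinarith

lemma n_sq (h : Rt u v r z) : 7 / 4 < (Complex.normSq z) ^ 2 := by
  have h1 := h.n_ge
  have h2 := h.n_gt
  set n := Complex.normSq z
  by_contra hc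
  push Not at hc
  have : n ^ 3 = n * n ^ 2 := by ring
  have h5 : n + 1 ≤ n * (7 / 4) := by nlinarith
  have h6 : 4 / 3 ≤ n := by linarith
  nlinarith

lemma re_sq (h : Rt u v r z) : z.re ^ 2 < Complex.normSq z := by
  have hn : Complex.normSq z = z.re * z.re + z.im * z.im := Complex.normSq_apply z
  have := h.im
  have : 0 < z.im ^ 2 := by positivity
  nlinarith

lemma re_abs (h : Rt u v r z) : |z.re| < Complex.normSq z := by
  have h1 := h.re_sq
  have h2 := h.n_gt
  apply abs_lt_of_sq_lt_sq _ (by linarith)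
  nlinarith

lemma v_lt (h : Rt u v r z) : (v : ℝ) < Complex.normSq z + 2 := by
  have h1 := h.nrm
  have h2 := h.re_abs
  have h3 := h.neg
  rw [h.hv]
  have h4 := (abs_lt.mp h2).1
  have : r * z.re < 1 := by nlinarith
  linarith

lemma u_abs (h : Rt u v r z) : |(u : ℝ)| < 1 + 2 * |z.re| := by
  rw [h.hu, abs_neg]
  have h3 := h.neg
  have h4 := h.gt
  have : |r| < 1 := by rw [abs_lt]; constructor <;> linarith
  calc |r + 2 * z.re| ≤ |r| + |2 * z.re| := abs_add_le _ _
    _ = |r| + 2 * |z.re| := by rw [abs_mul]; norm_num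
    _ < _ := by linarith

/-- The real root is determined by `u, v`. -/
lemma r_unique (h : Rt u v r z) {r' : ℝ} {z' : ℂ} (h' : Rt u v r' z') : r = r' := by
  have h1 := h.factor r'
  have h2 := h'.factor r'
  have h3 := h.pos_fac r'
  rw [h1, sub_self, zero_mul] at h2
  rcases mul_eq_zero.mp h2 with h4 | h4
  · linarith
  · exact absurd h4 h3.ne'

lemma n_unique (h : Rt u v r z) {r' : ℝ} {z' : ℂ} (h' : Rt u v r' z') :
    Complex.normSq z = Complex.normSq z' := by
  have h0 := h.r_unique h'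
  have h1 := h.nrm
  have h2 := h'.nrm
  have h3 := h.neg
  subst h0
  have : r * (Complex.normSq z - Complex.normSq z') = 0 := by linarith
  rcases mul_eq_zero.mp this with h4 | h4
  · linarith
  · linarith

end Rt

end Pool.Agent.R309.UnitSum
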