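import Pool.Agent.R309.UnitSumA

set_option autoImplicit false

namespace Pool.Agent.R309.UnitSum

open Complex

/-- Power sums, from the algebraic relations only. -/
lemma ps_real {u v : ℤ} {r : ℝ} {z : ℂ} (nrm : r * normSq z = -1)
    (hu : (u : ℝ) = -(r + 2 * z.re)) (hv : (v : ℝ) = normSq z + 2 * r * z.re) (m : ℕ) :
    (ps u v m : ℝ) = r ^ m + 2 * (z ^ m).re := by
  have hz2 : z ^ 2 = 2 * (z.re : ℂ) * z - (normSq z : ℂ) := by
    apply Complex.ext
    · simp [pow_two, normSq_apply]; ring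
    · simp [pow_two]; ring
  have hn : normSq z = z.re * z.re + z.im * z.im := normSq_apply z
  have hr3 : r ^ 3 = -u * r ^ 2 - v * r - 1 := by
    rw [hu, hv]; linear_combination nrm
  have hz3 : z ^ 3 = -(u : ℂ) * z ^ 2 - (v : ℂ) * z - 1 := by
    have e1 : (u : ℂ) = -((r : ℂ) + 2 * (z.re : ℂ)) := by
      have := congrArg (fun t : ℝ => (t : ℂ)) hu
      push_cast at this
      exact this
    have e2 : (v : ℂ) = (normSq z : ℂ) + 2 * (r : ℂ) * (z.re : ℂ) := by
      have := congrArg (fun t : ℝ => (t : ℂ)) hv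
      push_cast at this
      exact this
    have e3 : (r : ℂ) * (normSq z : ℂ) = -1 := by
      have := congrArg (fun t : ℝ => (t : ℂ)) nrm
      push_cast at this
      exact this
    rw [e1, e2]
    linear_combination (z - r) * hz2 + e3
  induction m using Nat.strong_induction_on with
  | _ m ih =>
    match m, ih with
    | 0, _ => simp [ps]; norm_num
    | 1, _ => simp only [ps]; push_cast; rw [hu]; simp
    | 2, _ =>
      simp only [ps]
      push_cast
      have : (z ^ 2).re = z.re * z.re - z.im * z.im := by rw [pow_two, mul_re]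
      rw [this, hu, hv, hn]
      ring
    | k + 3, ih =>
      have i0 := ih k (by omega)
      have i1 := ih (k + 1) (by omega)
      have i2 := ih (k + 2) (by omega)
      have hps : ps u v (k + 3) = -u * ps u v (k + 2) - v * ps u v (k + 1) - ps u v k := by
        rw [ps]
      rw [hps]
      push_cast
      rw [i0, i1, i2]
      have e4 : (z ^ (k + 3)).re = -u * (z ^ (k + 2)).re - v * (z ^ (k + 1)).re - (z ^ k).re := by
        have : z ^ (k + 3) = ((-u : ℝ) : ℂ) * z ^ (k + 2) - ((v : ℝ) : ℂ) * z ^ (k + 1) - z ^ k := by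
          push_cast
          linear_combination (z ^ k) * hz3
        rw [this, sub_re, sub_re, re_ofReal_mul, re_ofReal_mul]
      rw [e4]
      linear_combination (-(r ^ k)) * hr3

namespace Rt

variable {u v b c : ℤ} {r a : ℝ} {z y : ℂ}

lemma z_ne (h : Rt u v r z) : z ≠ 0 := by
  intro hz
  apply h.im
  rw [hz]; simp

lemma ps_eq (h : Rt u v r z) (m : ℕ) : (ps u v m : ℝ) = r ^ m + 2 * (z ^ m).re :=
  ps_real h.nrm h.hu h.hv m

lemma ps_eq' (h : Rt u v r z) (m : ℕ) : (ps v u m : ℝ) = (r⁻¹) ^ m + 2 * ((z⁻¹) ^ m).re := by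
  have hr : r ≠ 0 := h.neg.ne
  have hn : normSq z ≠ 0 := by
    intro h0
    have := h.nrm
    rw [h0] at this
    simp at this
  have hri : r⁻¹ = -normSq z := by
    have := h.nrm
    field_simp
    linarith
  have hre : (z⁻¹).re = -r * z.re := by
    rw [inv_re, div_eq_iff hn]
    linear_combination (z.re) * h.nrm
  have hns : normSq (z⁻¹) = -r := by
    rw [map_inv₀]
    have := h.nrm
    field_simp
    linarith
  apply ps_real
  · rw [hns, mul_neg, inv_mul_cancel₀ hr]
  · rw [h.hv, hri, hre]; ring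
  · rw [hns, hri, hre, h.hu]
    linear_combination (-2 * z.re) * h.nrm

/-- Odd powers. -/
lemma pow (h : Rt u v r z) {k : ℕ} (hk : Odd k) (him : (z ^ k).im ≠ 0) :
    Rt (-ps u v k) (-ps v u k) (r ^ k) (z ^ k) := by
  have hk0 : k ≠ 0 := by rintro rfl; simp at hk
  have hr : r ≠ 0 := h.neg.ne
  have hnrm : r ^ k * normSq (z ^ k) = -1 := by
    rw [map_pow, ← mul_pow, h.nrm, hk.neg_one_pow]
  have hneg : r ^ k < 0 := hk.pow_neg h.neg
  refine ⟨him, hneg, ?_, hnrm, ?_, ?_⟩
  · have h1 : |r| < 1 := by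
      rw [abs_lt]; exact ⟨h.gt, by linarith [h.neg]⟩
    have h2 : |r ^ k| < 1 := by
      rw [abs_pow]; exact pow_lt_one₀ (abs_nonneg _) h1 hk0
    exact (abs_lt.mp h2).1
  · push_cast
    rw [h.ps_eq k]
  · push_cast
    rw [h.ps_eq' k, inv_pow, inv_pow, inv_re]
    have hr' : r ^ k ≠ 0 := hneg.ne
    have hn : normSq (z ^ k) ≠ 0 := by
      intro h0
      rw [h0] at hnrm
      simp at hnrm
    have e1 : (r ^ k)⁻¹ = -normSq (z ^ k) := by
      field_simp
      linarith
    have e2 : (z ^ k).re / normSq (z ^ k) = -(r ^ k) * (z ^ k).re := by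
      rw [div_eq_iff hn]
      linear_combination ((z ^ k).re) * hnrm
    rw [e1, e2]
    ring

lemma unique_coeff (h : Rt u v r z) (h' : Rt b c r z) : b = u ∧ c = v := by
  constructor
  · have : (b : ℝ) = u := by rw [h.hu, h'.hu]
    exact_mod_cast this
  · have : (c : ℝ) = v := by rw [h.hv, h'.hv]
    exact_mod_cast this

lemma A_lt (h : Rt b c a y) (hb : 1 ≤ b) : normSq y < c := by
  have h1 := h.n_cubic
  have h2 := h.n_gt
  have hb' : (1 : ℝ) ≤ b := by exact_mod_cast hb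
  set A := normSq y
  have h3 : A ^ 2 * (c - A) = b * A - 1 := by linarith
  have h4 : 0 < A ^ 2 * (c - A) := by rw [h3]; nlinarith
  have h5 : 0 < A ^ 2 := by positivity
  have := (mul_pos_iff_of_pos_left h5).mp h4
  linarith

lemma A_gt (h : Rt b c a y) (hb : 1 ≤ b) (hc : 2 * b ≤ c) : (c : ℝ) - 1 < normSq y := by
  have h1 := h.n_cubic
  have h2 := h.n_gt
  have hb' : (1 : ℝ) ≤ b := by exact_mod_cast hb
  have hc' : (2 : ℝ) * b ≤ c := by exact_mod_cast hc
  set A := normSq y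
  have h3 : A ^ 2 * (c - A) = b * A - 1 := by linarith
  have h4 : A * (A * (c - A) - b) < 0 := by nlinarith
  have hA : 0 < A := by linarith
  have h5 : A * (c - A) < b := by
    by_contra hh
    push Not at hh
    have : 0 ≤ A * (A * (c - A) - b) := mul_nonneg hA.le (by linarith)
    linarith
  have h6 : (b : ℝ) ≤ A := by
    by_contra hh
    push Not at hh
    nlinarith
  by_contra hh
  push Not at hh
  nlinarith

end Rt

/-- Excluding squares. -/
lemma no_sq {u v b c : ℤ} {r a : ℝ} {z y : ℂ} (h : Rt u v r z) (h' : Rt b c a y)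
    (ha : a = -r ^ 2) (hy : y = -z ^ 2) (hb : b % 2 = 1) (hbc : (b + c) % 4 = 0) : False := by
  have hn : normSq z = z.re * z.re + z.im * z.im := normSq_apply z
  have hyre : y.re = -(z.re * z.re - z.im * z.im) := by
    rw [hy, neg_re, pow_two, mul_re]
  have hyn : normSq y = normSq z ^ 2 := by
    rw [hy, normSq_neg, map_pow]
  have e1 : b = u ^ 2 - 2 * v := by
    have : (b : ℝ) = u ^ 2 - 2 * v := by
      rw [h'.hu, h.hu, h.hv, ha, hyre, hn]; ring
    exact_mod_cast this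
  have e2 : c = v ^ 2 - 2 * u := by
    have : (c : ℝ) = v ^ 2 - 2 * u := by
      rw [h'.hv, h.hu, h.hv, ha, hyre, hyn]
      have h1 := h.nrm
      linear_combination (-2 * r - 4 * z.re) * h1 + (2*r^2) * hn
    exact_mod_cast this
  subst e1 e2
  have hu : u % 4 = 0 ∨ u % 4 = 1 ∨ u % 4 = 2 ∨ u % 4 = 3 := by omega
  have hv : v % 4 = 0 ∨ v % 4 = 1 ∨ v % 4 = 2 ∨ v % 4 = 3 := by omega
  have k1 : (u ^ 2 - 2 * v) % 4 = ((u % 4) ^ 2 - 2 * (v % 4)) % 4 := by
    simp [Int.sub_emod, Int.mul_emod, pow_two]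
  have k2 : (v ^ 2 - 2 * u) % 4 = ((v % 4) ^ 2 - 2 * (u % 4)) % 4 := by
    simp [Int.sub_emod, Int.mul_emod, pow_two]
  rcases hu with hu | hu | hu | hu <;> rcases hv with hv | hv | hv | hv <;>
    rw [hu, hv] at k1 k2 <;> norm_num at k1 k2 <;> omega

/-- Excluding cubes. -/
lemma no_cube {u v b c : ℤ} {r a : ℝ} {z y : ℂ} (h : Rt u v r z) (h' : Rt b c a y)
    (ha : a = r ^ 3) (hy : y = z ^ 3) (hb : b % 9 = 0 ∨ b % 9 = 6) : False := by
  have h3 : Odd 3 := by decide
  have him : (z ^ 3).im ≠ 0 := by rw [← hy]; exact h'.im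
  have h'' := h.pow h3 him
  rw [← ha, ← hy] at h''
  have e := (h''.unique_coeff h').1
  have e2 : ps u v 3 = -u ^ 3 + 3 * u * v - 3 := by
    simp only [ps]; ring
  rw [e2] at e
  have hu : u % 9 = 0 ∨ u % 9 = 1 ∨ u % 9 = 2 ∨ u % 9 = 3 ∨ u % 9 = 4 ∨ u % 9 = 5 ∨ u % 9 = 6 ∨
    u % 9 = 7 ∨ u % 9 = 8 := by omega
  have hv : v % 3 = 0 ∨ v % 3 = 1 ∨ v % 3 = 2 := by omega
  obtain ⟨w, hw⟩ : ∃ w, v = 3 * w + v % 3 := ⟨v / 3, by omega⟩
  obtain ⟨x, hx⟩ : ∃ x, u = 9 * x + u % 9 := ⟨u / 9, by omega⟩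
  rcases hu with hu | hu | hu | hu | hu | hu | hu | hu | hu <;> rcases hv with hv | hv | hv <;>
    rw [hu] at hx <;> rw [hv] at hw <;> rw [hx, hw] at e <;> ring_nf at e <;> omega

end Pool.Agent.R309.UnitSum
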