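import Pool.Agent.R309.UnitSumB

set_option autoImplicit false

namespace Pool.Agent.R309.UnitSum

open Complex

/-- No power relation `α = - η ^ 2` or `α = η ^ k` (`k ≥ 3` odd), where `α` is a root of
`X^3 + b X^2 + c X + 1`. -/
def NoRel (b c : ℤ) : Prop :=
  ∀ (a : ℝ) (y : ℂ), Rt b c a y → ∀ (u v : ℤ) (r : ℝ) (z : ℂ), Rt u v r z →
    ¬ (a = -r ^ 2 ∧ y = -z ^ 2) ∧ ∀ k : ℕ, Odd k → 3 ≤ k → ¬ (a = r ^ k ∧ y = z ^ k)

/-- A power relation with an odd exponent at least `k0`. -/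
def Bad (k0 : ℕ) (b c u v : ℤ) : Prop :=
  ∃ (a : ℝ) (y : ℂ) (r : ℝ) (z : ℂ) (k : ℕ), Rt b c a y ∧ Rt u v r z ∧ Odd k ∧ k0 ≤ k ∧
    a = r ^ k ∧ y = z ^ k

lemma bad_of_not {b c : ℤ} (h : ¬ NoRel b c) (hb : b % 2 = 1) (hbc : (b + c) % 4 = 0) :
    ∃ u v : ℤ, Bad 3 b c u v := by
  unfold NoRel at h
  push Not at h
  obtain ⟨a, y, h', u, v, r, z, hR, hh⟩ := h
  by_cases hs : a = -r ^ 2 ∧ y = -z ^ 2
  · exact (no_sq hR h' hs.1 hs.2 hb hbc).elim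
  · obtain ⟨k, hk, hk3, h1, h2⟩ := hh (fun h1 h2 => hs ⟨h1, h2⟩)
    exact ⟨u, v, a, y, r, z, k, h', hR, hk, hk3, h1, h2⟩

lemma bad_of_not' {b c : ℤ} (h : ¬ NoRel b c) (hb : b % 2 = 1) (hbc : (b + c) % 4 = 0)
    (hb9 : b % 9 = 0 ∨ b % 9 = 6) :
    ∃ u v : ℤ, Bad 5 b c u v := by
  obtain ⟨u, v, a, y, r, z, k, h', hR, hk, hk3, h1, h2⟩ := bad_of_not h hb hbc
  by_cases h3 : 3 ∣ k
  · exfalso
    obtain ⟨j, rfl⟩ := h3
    have hj : Odd j := by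
      rcases Nat.even_or_odd j with he | ho
      · exact absurd hk (by simp [Nat.not_odd_iff_even, he.mul_left])
      · exact ho
    have e1 : a = (r ^ j) ^ 3 := by rw [h1, mul_comm, pow_mul]
    have e2 : y = (z ^ j) ^ 3 := by rw [h2, mul_comm, pow_mul]
    have him : (z ^ j).im ≠ 0 := by
      intro h0
      apply h'.im
      rw [e2]
      have : z ^ j = ((z ^ j).re : ℂ) := by
        apply Complex.ext <;> simp [h0]
      rw [this, ← ofReal_pow, ofReal_im]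
    exact no_cube (hR.pow hj him) h' e1 e2 hb9
  · refine ⟨u, v, a, y, r, z, k, h', hR, hk, ?_, h1, h2⟩
    obtain ⟨i, hi⟩ := hk
    omega

lemma Bad.eqs {k0 : ℕ} {b c u v : ℤ} (h : Bad k0 b c u v) (hb : 1 ≤ b) (hc : 2 * b ≤ c) :
    ∃ (k : ℕ) (r : ℝ) (z : ℂ), Rt u v r z ∧ Odd k ∧ k0 ≤ k ∧ b = -ps u v k ∧ c = -ps v u k ∧
      (c : ℝ) - 1 < (normSq z) ^ k ∧ (normSq z) ^ k < c := by
  obtain ⟨a, y, r, z, k, h', hR, hk, hk3, h1, h2⟩ := h
  have him : (z ^ k).im ≠ 0 := by rw [← h2]; exact h'.im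
  have h3 := hR.pow hk him
  rw [← h1, ← h2] at h3
  have h4 := h3.unique_coeff h'
  refine ⟨k, r, z, hR, hk, hk3, h4.1, h4.2, ?_, ?_⟩
  · have := h'.A_gt hb hc
    rwa [h2, map_pow] at this
  · have := h'.A_lt hb
    rwa [h2, map_pow] at this

lemma n_lt_of_pow {k k0 N : ℕ} {n : ℝ} {c : ℤ} (hn : 1 < n) (hk : k0 ≤ k) (h : n ^ k < c)
    (hc : c ≤ (N : ℤ) ^ k0) : n < N := by
  by_contra hh
  push Not at hh
  have h1 : (N : ℝ) ^ k0 ≤ n ^ k0 := pow_le_pow_left₀ (by positivity) hh k0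
  have h2 : n ^ k0 ≤ n ^ k := pow_le_pow_right₀ hn.le hk
  have h3 : (c : ℝ) ≤ (N : ℝ) ^ k0 := by exact_mod_cast hc
  linarith

lemma Bad.box {k0 : ℕ} {b c u v : ℤ} (h : Bad k0 b c u v) (hb : 1 ≤ b) (hc : 2 * b ≤ c)
    {N U : ℕ} (hN : c ≤ (N : ℤ) ^ k0) (hU : 4 * N ≤ U ^ 2) :
    0 ≤ v ∧ v ≤ N + 1 ∧ -(U : ℤ) ≤ u ∧ u ≤ U := by
  obtain ⟨k, r, z, hR, hk, hk3, -, -, -, h2⟩ := h.eqs hb hc
  have hn := n_lt_of_pow hR.n_gt hk3 h2 hN
  have hv := hR.v_lt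
  have hu := hR.u_abs
  have hx := hR.re_sq
  have h4 : (2 * |z.re|) ^ 2 < (U : ℝ) ^ 2 := by
    have e1 : (4 : ℝ) * N ≤ (U : ℝ) ^ 2 := by exact_mod_cast hU
    have e2 : |z.re| ^ 2 = z.re ^ 2 := sq_abs _
    nlinarith
  have h5 : 2 * |z.re| < U := lt_of_pow_lt_pow_left₀ 2 (by positivity) h4
  have h6 : |(u : ℝ)| < U + 1 := by linarith
  rw [abs_lt] at h6
  refine ⟨hR.v_nonneg, ?_, ?_, ?_⟩
  · have : (v : ℝ) < (N : ℝ) + 2 := by linarith
    have : v < (N : ℤ) + 2 := by exact_mod_cast this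
    omega
  · have : (-((U : ℝ) + 1) : ℝ) < u := h6.1
    have : -((U : ℤ) + 1) < u := by exact_mod_cast this
    omega
  · have : (u : ℝ) < (U : ℝ) + 1 := h6.2
    have : u < (U : ℤ) + 1 := by exact_mod_cast this
    omega

lemma Bad.unique {k0 : ℕ} {b c b' c' u v : ℤ} (h : Bad k0 b c u v) (h' : Bad k0 b' c' u v)
    (hs : b + c = b' + c')
    (hb : 1 ≤ b) (hc : 2 * b ≤ c) (hb' : 1 ≤ b') (hc' : 2 * b' ≤ c')
    (h7 : 7 * (b + 1) ≤ 3 * (b + c)) (h7' : 7 * (b' + 1) ≤ 3 * (b' + c')) : b = b' := by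
  obtain ⟨k, r, z, hR, hk, hk3, e1, e2, l1, l2⟩ := h.eqs hb hc
  obtain ⟨k', r', z', hR', hk', hk3', e1', e2', l1', l2'⟩ := h'.eqs hb' hc'
  have hn := hR.n_unique hR'
  have key : ∀ {i j : ℕ} {n : ℝ} {c c' s : ℤ} , Odd i → Odd j → i < j → 1 < n → 7 / 4 < n ^ 2 →
      (c : ℝ) - 1 < n ^ i → n ^ j < c' → c' ≤ s → 7 * (s - c + 1) ≤ 3 * s → False := by
    intro i j n c c' s hi hj hij h1 h2 h3 h4 h5 h6
    obtain ⟨i', hi'⟩ := hi
    obtain ⟨j', hj'⟩ := hj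
    have hij2 : i + 2 ≤ j := by omega
    have e : n ^ (i + 2) ≤ n ^ j := pow_le_pow_right₀ h1.le hij2
    rw [pow_add] at e
    have hip : 0 < n ^ i := by positivity
    have e2 : n ^ i * (7 / 4) < n ^ i * n ^ 2 := mul_lt_mul_of_pos_left h2 hip
    have h6' : (7 : ℝ) * (s - c + 1) ≤ 3 * s := by exact_mod_cast h6
    have h5' : (c' : ℝ) ≤ s := by exact_mod_cast h5
    nlinarith
  have hkk : k = k' := by
    rcases lt_trichotomy k k' with hlt | heq | hgt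
    · exfalso
      rw [← hn] at l1' l2'
      exact key hk hk' hlt hR.n_gt hR.n_sq l1 l2' (s := b + c) (by omega) (by omega)
    · exact heq
    · exfalso
      rw [← hn] at l1' l2'
      exact key hk' hk hgt hR.n_gt hR.n_sq l1' l2 (s := b + c) (by omega) (by omega)
  rw [e1, e1', hkk]

/-! ### The table for `b = 9` -/

/-- Check that none of the next `n` power sums equals `w`. -/
def chk (w u v : ℤ) : ℕ → ℤ → ℤ → ℤ → Bool
  | 0, _, _, _ => true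
  | n + 1, x0, x1, x2 => (!decide (x0 = w)) && chk w u v n x1 x2 (-u * x2 - v * x1 - x0)

lemma chk_spec (w u v : ℤ) (n : ℕ) : ∀ (i : ℕ),
    chk w u v n (ps u v i) (ps u v (i + 1)) (ps u v (i + 2)) = true →
    ∀ j, j < n → ps u v (i + j) ≠ w := by
  induction n with
  | zero => intro i _ j hj; omega
  | succ n ih =>
    intro i h j hj
    rw [chk, Bool.and_eq_true] at h
    rcases j with _ | j
    · simpa using h.1
    · have h3 : ps u v (i + 3) = -u * ps u v (i + 2) - v * ps u v (i + 1) - ps u v i := by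
        rw [ps]
      have h2 := h.2
      rw [← h3] at h2
      have := ih (i + 1) h2 j (by omega)
      rwa [show i + (j + 1) = i + 1 + j by ring]

def tab9 : Bool :=
  (List.range 55).all fun v => (List.range 31).all fun u =>
    let u' : ℤ := (u : ℤ) - 15
    let v' : ℤ := (v : ℤ)
    let p3 := -u' * (u' ^ 2 - 2 * v') - v' * (-u') - 3
    let p4 := -u' * p3 - v' * (u' ^ 2 - 2 * v') - (-u')
    let p5 := -u' * p4 - v' * p3 - (u' ^ 2 - 2 * v')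
    chk (-9) u' v' 69 p3 p4 p5

set_option maxRecDepth 100000 in
theorem tab9_true : tab9 = true := by decide +kernel

end Pool.Agent.R309.UnitSum
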