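import Pool.Agent.R309.UnitSumC

set_option autoImplicit false

namespace Pool.Agent.R309.UnitSum

open Complex

lemma ps_tab9 (u v : ℤ) (hv0 : 0 ≤ v) (hv : v ≤ 54) (hu0 : -15 ≤ u) (hu : u ≤ 15) (k : ℕ)
    (hk : 3 ≤ k) (hk' : k < 72) : ps u v k ≠ -9 := by
  have h := tab9_true
  unfold tab9 at h
  rw [List.all_eq_true] at h
  have h1 := h v.toNat (by rw [List.mem_range]; omega)
  rw [List.all_eq_true] at h1
  have h2 := h1 (u + 15).toNat (by rw [List.mem_range]; omega)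
  have e1 : ((u + 15).toNat : ℤ) - 15 = u := by omega
  have e2 : (v.toNat : ℤ) = v := by omega
  simp only [e1, e2] at h2
  have p3 : ps u v 3 = -u * (u ^ 2 - 2 * v) - v * (-u) - 3 := by simp only [ps]
  have p4 : ps u v 4 = -u * ps u v 3 - v * (u ^ 2 - 2 * v) - (-u) := by simp only [ps]
  have p5 : ps u v 5 = -u * ps u v 4 - v * ps u v 3 - (u ^ 2 - 2 * v) := by simp only [ps]
  rw [← p3, ← p4, ← p5] at h2
  have h3 := chk_spec (-9) u v 69 3 h2 (k - 3) (by omega)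
  rwa [show 3 + (k - 3) = k by omega] at h3

lemma noRel9 {K0 : ℤ} (h1 : 56 ≤ K0) (h2 : K0 ≤ 53 ^ 5) (h4 : K0 % 4 = 0) :
    NoRel 9 (K0 - 9) := by
  by_contra hh
  obtain ⟨u, v, hB⟩ := bad_of_not' hh (by norm_num) (by omega) (by norm_num)
  obtain ⟨hv0, hv, hu0, hu⟩ := hB.box (N := 53) (U := 15) (by norm_num) (by omega) (by push_cast; omega)
    (by norm_num)
  obtain ⟨k, r, z, hR, hk, hk3, e1, -, l1, l2⟩ := hB.eqs (by norm_num) (by omega)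
  have hk72 : k < 72 := by
    by_contra hc
    push Not at hc
    have hn := hR.n_gt
    have hn2 := hR.n_sq
    have e3 : (normSq z) ^ 72 ≤ (normSq z) ^ k := pow_le_pow_right₀ hn.le hc
    have e4 : (7 / 4 : ℝ) ^ 36 ≤ ((normSq z) ^ 2) ^ 36 :=
      pow_le_pow_left₀ (by norm_num) hn2.le 36
    rw [← pow_mul] at e4
    norm_num at e4
    have e5 : ((K0 - 9 : ℤ) : ℝ) ≤ 53 ^ 5 := by
      have : K0 - 9 ≤ 53 ^ 5 := by omega
      exact_mod_cast this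
    have e6 : (53 ^ 5 : ℝ) < (7 / 4 : ℝ) ^ 36 := by norm_num
    push_cast at e5 l2
    norm_num at e5 e6 e4
    linarith
  have := ps_tab9 u v hv0 (by push_cast at hv; omega) (by push_cast at hu0; omega)
    (by push_cast at hu; omega) k (by omega) hk72
  omega

/-- Polynomial inequality used for the pigeonhole. -/
lemma poly_ineq {N U : ℤ} (hN : 53 ≤ N) (hU1 : 1 ≤ U) (hU : (U - 1) ^ 2 < 4 * N) {B : ℤ}
    (hB : B = 18 * ((2 * U + 1) * (N + 2)) + 9) (hJ : 15 ≤ U) :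
    B ^ 2 + 3 * B ≤ 3 * (N - 1) ^ 5 := by
  have hw : 5 * (2 * U + 1) ^ 2 ≤ 97 * N := by
    have h0 : 0 ≤ (U - 15) ^ 2 := sq_nonneg _
    nlinarith
  set T := (2 * U + 1) * (N + 2) with hT
  have hT1 : 1705 ≤ T := by nlinarith
  have hT2 : 5 * T ^ 2 ≤ 97 * N * (N + 2) ^ 2 := by
    have : T ^ 2 = (2 * U + 1) ^ 2 * (N + 2) ^ 2 := by rw [hT]; ring
    rw [this]
    have : 0 ≤ (N + 2) ^ 2 := sq_nonneg _
    nlinarith
  have h1 : 5 * (B ^ 2 + 3 * B) ≤ 1622 * T ^ 2 := by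
    rw [hB]
    nlinarith
  obtain ⟨s, rfl⟩ : ∃ s, N = 53 + s := ⟨N - 53, by ring⟩
  have hs : 0 ≤ s := by omega
  have h2 : 1622 * (97 * (53 + s) * (53 + s + 2) ^ 2) ≤ 25 * (3 * (53 + s - 1) ^ 5) := by
    have : 25 * (3 * (53 + s - 1) ^ 5) - 1622 * (97 * (53 + s) * (53 + s + 2) ^ 2) =
      (25 * 3 * 52 ^ 5 - 1622 * 97 * 53 * 55 ^ 2)
      + (25 * 15 * 52 ^ 4 - 1622 * 97 * (55 ^ 2 + 2 * 53 * 55)) * s
      + (25 * 30 * 52 ^ 3 - 1622 * 97 * (2 * 55 + 53)) * s ^ 2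
      + (25 * 30 * 52 ^ 2 - 1622 * 97) * s ^ 3 + 25 * 15 * 52 * s ^ 4 + 75 * s ^ 5 := by ring
    have h3 : 0 ≤ (25 * 3 * 52 ^ 5 - 1622 * 97 * 53 * 55 ^ 2)
      + (25 * 15 * 52 ^ 4 - 1622 * 97 * (55 ^ 2 + 2 * 53 * 55)) * s
      + (25 * 30 * 52 ^ 3 - 1622 * 97 * (2 * 55 + 53)) * s ^ 2
      + (25 * 30 * 52 ^ 2 - 1622 * 97) * s ^ 3 + 25 * 15 * 52 * s ^ 4 + 75 * s ^ 5 := by
      norm_num
      positivity
    omega
  nlinarith

lemma exists_NU {K0 : ℤ} (h : 52 ^ 5 < K0) : ∃ N U : ℕ, 53 ≤ N ∧ 15 ≤ U ∧ K0 ≤ (N : ℤ) ^ 5 ∧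
    ((N : ℤ) - 1) ^ 5 < K0 ∧ 4 * N ≤ U ^ 2 ∧ ((U : ℤ) - 1) ^ 2 < 4 * N := by
  have hex : ∃ N : ℕ, K0 ≤ (N : ℤ) ^ 5 := by
    refine ⟨K0.toNat, ?_⟩
    have : (K0.toNat : ℤ) = K0 := by omega
    rw [this]
    calc K0 = K0 ^ 1 := by ring
      _ ≤ K0 ^ 5 := pow_le_pow_right₀ (by omega) (by norm_num)
  classical
  set N := Nat.find hex with hNdef
  have hN : K0 ≤ (N : ℤ) ^ 5 := Nat.find_spec hex
  have hN53 : 53 ≤ N := by
    by_contra hc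
    push Not at hc
    have h1 : (N : ℤ) ^ 5 ≤ 52 ^ 5 := pow_le_pow_left₀ (by positivity) (by omega) 5
    omega
  have hN1 : ((N : ℤ) - 1) ^ 5 < K0 := by
    have := Nat.find_min hex (m := N - 1) (by omega)
    push Not at this
    have e : ((N - 1 : ℕ) : ℤ) = (N : ℤ) - 1 := by omega
    rwa [e] at this
  have hex2 : ∃ U : ℕ, 4 * N ≤ U ^ 2 := ⟨4 * N, by nlinarith⟩
  set U := Nat.find hex2 with hUdef
  have hU : 4 * N ≤ U ^ 2 := Nat.find_spec hex2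
  have hU15 : 15 ≤ U := by
    by_contra hc
    push Not at hc
    have h1 : U ^ 2 ≤ 14 ^ 2 := Nat.pow_le_pow_left (by omega) 2
    have : 4 * N ≤ 14 ^ 2 := hU.trans h1
    omega
  have hU1 : ((U : ℤ) - 1) ^ 2 < 4 * N := by
    have := Nat.find_min hex2 (m := U - 1) (by omega)
    push Not at this
    have e : ((U - 1 : ℕ) : ℤ) = (U : ℤ) - 1 := by omega
    have h2 : (((U - 1 : ℕ) ^ 2 : ℕ) : ℤ) < ((4 * N : ℕ) : ℤ) := by exact_mod_cast this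
    push_cast at h2
    rwa [e] at h2
  exact ⟨N, U, hN53, hU15, hN, hN1, hU, hU1⟩

lemma noRel_big {K0 : ℤ} (h : 52 ^ 5 < K0) (h4 : K0 % 4 = 0) :
    ∃ b : ℤ, 9 ≤ b ∧ b ^ 2 + 3 * b < 3 * K0 ∧ NoRel b (K0 - b) := by
  obtain ⟨N, U, hN, hU, hK1, hK2, hNU, hU1⟩ := exists_NU h
  set J := (2 * U + 1) * (N + 2) with hJ
  have hB := poly_ineq (N := N) (U := U) (by omega) (by omega) hU1 rfl (by omega)
  set B : ℤ := 18 * ((2 * (U : ℤ) + 1) * ((N : ℤ) + 2)) + 9 with hBdef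
  have hBJ : B = 18 * (J : ℤ) + 9 := by rw [hBdef, hJ]; push_cast; ring
  have hineq : ∀ j : ℕ, j ≤ J → (18 * (j : ℤ) + 9) ^ 2 + 3 * (18 * (j : ℤ) + 9) < 3 * K0 := by
    intro j hj
    have h1 : 18 * (j : ℤ) + 9 ≤ B := by rw [hBJ]; omega
    have h2 : (18 * (j : ℤ) + 9) ^ 2 ≤ B ^ 2 := pow_le_pow_left₀ (by positivity) h1 2
    have h3 : 3 * ((N : ℤ) - 1) ^ 5 < 3 * K0 := by omega
    linarith
  by_contra hcon
  push Not at hcon
  have hbad : ∀ j : ℕ, j ≤ J → ∃ p : ℤ × ℤ, Bad 5 (18 * (j : ℤ) + 9) (K0 - (18 * (j : ℤ) + 9)) p.1 p.2 := by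
    intro j hj
    have := hcon (18 * (j : ℤ) + 9) (by omega) (hineq j hj)
    obtain ⟨u, v, hB⟩ := bad_of_not' this (by omega) (by omega) (by left; omega)
    exact ⟨(u, v), hB⟩
  choose! f hf using hbad
  have hcond : ∀ j : ℕ, j ≤ J → 1 ≤ 18 * (j : ℤ) + 9 ∧
      2 * (18 * (j : ℤ) + 9) ≤ K0 - (18 * (j : ℤ) + 9) ∧
      7 * ((18 * (j : ℤ) + 9) + 1) ≤ 3 * ((18 * (j : ℤ) + 9) + (K0 - (18 * (j : ℤ) + 9))) := by
    intro j hj
    have h1 := hineq j hj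
    have h2 : 9 ≤ 18 * (j : ℤ) + 9 := by omega
    refine ⟨by omega, ?_, ?_⟩ <;> nlinarith
  let box : Finset (ℤ × ℤ) := (Finset.Icc (-(U : ℤ)) U) ×ˢ (Finset.Icc (0 : ℤ) (N + 1))
  have hcard : box.card = J := by
    rw [Finset.card_product, Int.card_Icc, Int.card_Icc, hJ]
    congr 1 <;> omega
  have hmaps : ∀ j ∈ Finset.range (J + 1), f j ∈ box := by
    intro j hj
    rw [Finset.mem_range] at hj
    have hj' : j ≤ J := by omega
    have h1 := (hf j hj').box (N := N) (U := U) (hcond j hj').1 (hcond j hj').2.1 (by omega) hNU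
    rw [Finset.mem_product, Finset.mem_Icc, Finset.mem_Icc]
    exact ⟨⟨h1.2.2.1, h1.2.2.2⟩, ⟨h1.1, h1.2.1⟩⟩
  obtain ⟨i, hi, j, hj, hij, hfij⟩ := Finset.exists_ne_map_eq_of_card_lt_of_maps_to
    (s := Finset.range (J + 1)) (t := box) (by rw [hcard, Finset.card_range]; omega) hmaps
  rw [Finset.mem_range] at hi hj
  have hi' : i ≤ J := by omega
  have hj' : j ≤ J := by omega
  have h1 := hf i hi'
  have h2 := hf j hj'
  rw [← hfij] at h2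
  have h3 := h1.unique h2 (by ring) (hcond i hi').1 (hcond i hi').2.1 (hcond j hj').1
    (hcond j hj').2.1 (hcond i hi').2.2 (hcond j hj').2.2
  apply hij
  omega

/-- `t = -1`. -/
lemma noRel_small : NoRel 1 7 := by
  by_contra hh
  obtain ⟨u, v, hB⟩ := bad_of_not hh (by norm_num) (by norm_num)
  obtain ⟨hv0, hv, hu0, hu⟩ := hB.box (N := 2) (U := 3) (by norm_num) (by norm_num) (by norm_num)
    (by norm_num)
  obtain ⟨k, r, z, hR, hk, hk3, e1, e2, l1, l2⟩ := hB.eqs (by norm_num) (by norm_num)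
  have hk72 : k < 8 := by
    by_contra hc
    push Not at hc
    have hn := hR.n_gt
    have hn2 := hR.n_sq
    have e3 : (normSq z) ^ 8 ≤ (normSq z) ^ k := pow_le_pow_right₀ hn.le hc
    have e4 : (7 / 4 : ℝ) ^ 4 ≤ ((normSq z) ^ 2) ^ 4 :=
      pow_le_pow_left₀ (by norm_num) hn2.le 4
    rw [← pow_mul] at e4
    norm_num at e4 l2
    linarith
  have hk' : k = 3 ∨ k = 5 ∨ k = 7 := by
    obtain ⟨i, hi⟩ := hk
    omega
  have hu' : u = -3 ∨ u = -2 ∨ u = -1 ∨ u = 0 ∨ u = 1 ∨ u = 2 ∨ u = 3 := by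
    push_cast at hu0 hu
    omega
  have hv' : v = 0 ∨ v = 1 ∨ v = 2 ∨ v = 3 := by
    push_cast at hv
    omega
  rcases hk' with rfl | rfl | rfl <;> rcases hu' with rfl | rfl | rfl | rfl | rfl | rfl | rfl <;>
    rcases hv' with rfl | rfl | rfl | rfl <;> simp [ps] at e1 e2

/-- The arithmetic input. -/
theorem exists_noRel (t : ℤ) (h0 : t ≠ 0) (h1 : t ≠ 1) :
    ∃ b c : ℤ, b + c = 4 * t ^ 4 - 4 * t ∧ 1 ≤ b ∧ b + 2 ≤ c ∧ b ^ 2 < 3 * c ∧ NoRel b c := by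
  have h4 : (4 * t ^ 4 - 4 * t) % 4 = 0 := by
    have : 4 * t ^ 4 - 4 * t = 4 * (t ^ 4 - t) := by ring
    omega
  by_cases hm1 : t = -1
  · subst hm1
    exact ⟨1, 7, by norm_num, by norm_num, by norm_num, by norm_num, noRel_small⟩
  have h56 : 56 ≤ 4 * t ^ 4 - 4 * t := by
    rcases lt_or_ge t 0 with hneg | hpos
    · have : t ≤ -2 := by omega
      nlinarith [sq_nonneg (t ^ 2 - 4), sq_nonneg (t + 2), mul_nonneg (show (0:ℤ) ≤ -t - 2 by omega) (show (0:ℤ) ≤ -t by omega)]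
    · have : 2 ≤ t := by omega
      have h3 : 8 ≤ t ^ 3 := by
        calc (8 : ℤ) = 2 ^ 3 := by norm_num
          _ ≤ t ^ 3 := pow_le_pow_left₀ (by norm_num) this 3
      nlinarith
  rcases le_or_gt (4 * t ^ 4 - 4 * t) (53 ^ 5) with hle | hgt
  · refine ⟨9, 4 * t ^ 4 - 4 * t - 9, by ring, by norm_num, by omega, by omega, noRel9 h56 hle h4⟩
  · obtain ⟨b, hb9, hb, hN⟩ := noRel_big (K0 := 4 * t ^ 4 - 4 * t) (by omega) h4
    refine ⟨b, 4 * t ^ 4 - 4 * t - b, by ring, by omega, ?_, by linarith, hN⟩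
    nlinarith

end Pool.Agent.R309.UnitSum
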