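import Mathlib

/-!
The length (sum of absolute values of the coefficients) of a nonzero multiple of
`X^3 + b X^2 + c X + 1` with `0 ≤ b`, `b + 2 ≤ c` is at least `b + c + 2`.
-/

set_option autoImplicit false

namespace Pool.Agent.R309.UnitSum

open Finset Polynomial

lemma sum_shift (G : ℕ → ℤ) (d : ℕ) (h0 : G 0 = 0) (hd : G (d + 1) = 0) :
    ∑ i ∈ range (d + 1), |G (i + 1)| = ∑ i ∈ range (d + 1), |G i| := by
  have h1 : ∑ i ∈ range (d + 2), |G i| = ∑ i ∈ range (d + 1), |G (i + 1)| + |G 0| :=
    Finset.sum_range_succ' (fun i => |G i|) (d + 1)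
  have h2 : ∑ i ∈ range (d + 2), |G i| = ∑ i ∈ range (d + 1), |G i| + |G (d + 1)| :=
    Finset.sum_range_succ (fun i => |G i|) (d + 1)
  rw [h0] at h1
  rw [hd] at h2
  simp at h1 h2
  linarith

lemma seq_lower {b c : ℤ} (hb : 0 ≤ b) (hc : b + 2 ≤ c) (G : ℕ → ℤ) (l d : ℕ) (hl3 : 3 ≤ l)
    (hld : l ≤ d) (hl : G l ≠ 0) (hd : G d ≠ 0) (hlow : ∀ i, i < l → G i = 0)
    (hhigh : ∀ i, d < i → G i = 0) :
    b + c + 2 ≤ ∑ i ∈ range (d + 1), |G (i + 3) + c * G (i + 2) + b * G (i + 1) + G i| := by
  set S := ∑ i ∈ range (d + 1), |G i| with hS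
  have s1 : ∑ i ∈ range (d + 1), |G (i + 1)| = S :=
    sum_shift G d (hlow 0 (by omega)) (hhigh _ (by omega))
  have s2 : ∑ i ∈ range (d + 1), |G (i + 2)| = S := by
    rw [← s1]
    exact sum_shift (fun i => G (i + 1)) d (hlow 1 (by omega)) (hhigh _ (by omega))
  have s3 : ∑ i ∈ range (d + 1), |G (i + 3)| = S := by
    rw [← s2]
    exact sum_shift (fun i => G (i + 2)) d (hlow 2 (by omega)) (hhigh _ (by omega))
  have hS1 : 1 ≤ S := by
    have h1 : |G l| ≤ S := Finset.single_le_sum (f := fun i => |G i|)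
      (fun i _ => abs_nonneg _) (Finset.mem_range.mpr (by omega))
    have : 1 ≤ |G l| := Int.one_le_abs hl
    omega
  let E : ℕ → ℤ := fun i => (if i = l - 3 then 2 * |G l| else 0) +
    (if i = d then 2 * |G d| else 0) + (if i = d - 1 then 2 * b * |G d| else 0)
  have hE : ∑ i ∈ range (d + 1), E i = 2 * |G l| + 2 * |G d| + 2 * b * |G d| := by
    simp only [E, Finset.sum_add_distrib, Finset.sum_ite_eq', Finset.mem_range]
    rw [if_pos (by omega), if_pos (by omega), if_pos (by omega)]
  have hpt : ∀ i ∈ range (d + 1),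
      (c * |G (i + 2)| - |G (i + 3)| - b * |G (i + 1)| - |G i|) + E i ≤
      |G (i + 3) + c * G (i + 2) + b * G (i + 1) + G i| := by
    intro i hi
    rw [Finset.mem_range] at hi
    by_cases h1 : i = l - 3
    · have e0 : G i = 0 := hlow _ (by omega)
      have e1 : G (i + 1) = 0 := hlow _ (by omega)
      have e2 : G (i + 2) = 0 := hlow _ (by omega)
      have e3 : i + 3 = l := by omega
      simp only [E]
      rw [if_pos h1, if_neg (by omega), if_neg (by omega), e0, e1, e2, e3]
      simp
      linarith [abs_nonneg (G l)]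
    · by_cases h2 : i = d
      · have e1 : G (i + 1) = 0 := hhigh _ (by omega)
        have e2 : G (i + 2) = 0 := hhigh _ (by omega)
        have e3 : G (i + 3) = 0 := hhigh _ (by omega)
        simp only [E]
        rw [if_neg h1, if_pos h2, if_neg (by omega), e1, e2, e3, h2]
        simp
        linarith [abs_nonneg (G d)]
      · by_cases h3 : i = d - 1
        · have e2 : G (i + 2) = 0 := hhigh _ (by omega)
          have e3 : G (i + 3) = 0 := hhigh _ (by omega)
          have e4 : i + 1 = d := by omega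
          simp only [E]
          rw [if_neg h1, if_neg h2, if_pos h3, e2, e3, e4]
          have h5 : |b * G d| ≤ |b * G d + G i| + |G i| := by
            calc |b * G d| = |(b * G d + G i) - G i| := by ring_nf
              _ ≤ |b * G d + G i| + |G i| := abs_sub _ _
          rw [abs_mul, abs_of_nonneg hb] at h5
          simp
          linarith
        · simp only [E]
          rw [if_neg h1, if_neg h2, if_neg h3]
          have h5 : |c * G (i + 2)| ≤ |G (i + 3) + c * G (i + 2) + b * G (i + 1) + G i| +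
              |G (i + 3)| + |b * G (i + 1)| + |G i| := by
            have := abs_add_le (G (i + 3) + c * G (i + 2) + b * G (i + 1) + G i) (-G (i + 3))
            have h6 := abs_add_le (G (i + 3) + c * G (i + 2) + b * G (i + 1) + G i + -G (i + 3))
              (-(b * G (i + 1)))
            have h7 := abs_add_le (G (i + 3) + c * G (i + 2) + b * G (i + 1) + G i + -G (i + 3) +
              (-(b * G (i + 1)))) (-G i)
            have e : G (i + 3) + c * G (i + 2) + b * G (i + 1) + G i + -G (i + 3) +
              (-(b * G (i + 1))) + -G i = c * G (i + 2) := by ring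
            rw [e] at h7
            rw [abs_neg] at this h6 h7
            linarith
          rw [abs_mul, abs_mul, abs_of_nonneg hb, abs_of_nonneg (show 0 ≤ c by omega)] at h5
          linarith
  have hsum := Finset.sum_le_sum hpt
  rw [Finset.sum_add_distrib, hE, Finset.sum_sub_distrib, Finset.sum_sub_distrib,
    Finset.sum_sub_distrib, ← Finset.mul_sum, ← Finset.mul_sum, s1, s2, s3, ← hS] at hsum
  have a1 : 1 ≤ |G l| := Int.one_le_abs hl
  have a2 : 1 ≤ |G d| := Int.one_le_abs hd
  have a3 : b ≤ b * |G d| := by nlinarith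
  have a4 : 0 ≤ (c - b - 2) * (S - 1) := mul_nonneg (by omega) (by omega)
  nlinarith

theorem len_lower {b c : ℤ} (hb : 0 ≤ b) (hc : b + 2 ≤ c) (g : ℤ[X]) (hg : g ≠ 0) {n : ℕ}
    (s : Fin n → ℤ) (e : Fin n → ℕ)
    (h : (X ^ 3 + C b * X ^ 2 + C c * X + 1) * g = ∑ j, C (s j) * X ^ (e j)) :
    b + c + 2 ≤ ∑ j, |s j| := by
  set g' := X ^ 3 * g with hg'
  have hg'0 : g' ≠ 0 := mul_ne_zero (pow_ne_zero _ X_ne_zero) hg
  have h' : (X ^ 3 + C b * X ^ 2 + C c * X + 1) * g' = ∑ j, C (s j) * X ^ (e j + 3) := by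
    have : (X ^ 3 + C b * X ^ 2 + C c * X + 1) * g' =
      ((X ^ 3 + C b * X ^ 2 + C c * X + 1) * g) * X ^ 3 := by rw [hg']; ring
    rw [this, h, Finset.sum_mul]
    refine Finset.sum_congr rfl fun j _ => ?_
    rw [pow_add]; ring
  set l := g'.natTrailingDegree with hl
  set d := g'.natDegree with hd
  have hl3 : 3 ≤ l := by
    rw [hl]
    apply le_natTrailingDegree hg'0
    intro m hm
    rw [hg', mul_comm, coeff_mul_X_pow', if_neg (by omega)]
  have hlow : ∀ i, i < l → g'.coeff i = 0 := fun i hi => coeff_eq_zero_of_lt_natTrailingDegree hi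
  have hhigh : ∀ i, d < i → g'.coeff i = 0 := fun i hi => coeff_eq_zero_of_natDegree_lt hi
  have hlc : g'.coeff l ≠ 0 := by
    have := trailingCoeff_nonzero_iff_nonzero.mpr hg'0
    exact this
  have hdc : g'.coeff d ≠ 0 := by
    have := leadingCoeff_ne_zero.mpr hg'0
    exact this
  have hld : l ≤ d := natTrailingDegree_le_natDegree g'
  have key := seq_lower hb hc (fun i => g'.coeff i) l d hl3 hld hlc hdc hlow hhigh
  have hco : ∀ i, g'.coeff (i + 3) + c * g'.coeff (i + 2) + b * g'.coeff (i + 1) + g'.coeff i =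
      ∑ j, (if i + 3 = e j + 3 then s j else 0) := by
    intro i
    have h1 : ((X ^ 3 + C b * X ^ 2 + C c * X + 1) * g').coeff (i + 3) =
        ∑ j, (if i + 3 = e j + 3 then s j else 0) := by
      rw [h', finsetSum_coeff]
      refine Finset.sum_congr rfl fun j _ => ?_
      rw [coeff_C_mul_X_pow]
    rw [← h1]
    have : (X ^ 3 + C b * X ^ 2 + C c * X + 1) * g' =
      g' * X ^ 3 + C b * (g' * X ^ 2) + C c * (g' * X ^ 1) + g' := by ring
    rw [this, coeff_add, coeff_add, coeff_add, coeff_C_mul, coeff_C_mul]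
    have e1 : (g' * X ^ 3).coeff (i + 3) = g'.coeff i := coeff_mul_X_pow g' 3 i
    have e2 : (g' * X ^ 2).coeff (i + 3) = g'.coeff (i + 1) := coeff_mul_X_pow g' 2 (i + 1)
    have e3 : (g' * X ^ 1).coeff (i + 3) = g'.coeff (i + 2) := coeff_mul_X_pow g' 1 (i + 2)
    rw [e1, e2, e3]
    ring
  have hup : ∑ i ∈ range (d + 1), |g'.coeff (i + 3) + c * g'.coeff (i + 2) + b * g'.coeff (i + 1)
      + g'.coeff i| ≤ ∑ j, |s j| := by
    calc ∑ i ∈ range (d + 1), |g'.coeff (i + 3) + c * g'.coeff (i + 2) + b * g'.coeff (i + 1)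
      + g'.coeff i| ≤ ∑ i ∈ range (d + 1), ∑ j : Fin n, (if i + 3 = e j + 3 then |s j| else 0) := by
          refine Finset.sum_le_sum fun i _ => ?_
          rw [hco]
          refine (Finset.abs_sum_le_sum_abs _ _).trans (Finset.sum_le_sum fun j _ => ?_)
          split_ifs
          · exact le_rfl
          · simp
      _ = ∑ j : Fin n, ∑ i ∈ range (d + 1), (if i + 3 = e j + 3 then |s j| else 0) :=
          Finset.sum_comm
      _ ≤ ∑ j : Fin n, |s j| := by
          refine Finset.sum_le_sum fun j _ => ?_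
          have : ∀ i, (if i + 3 = e j + 3 then |s j| else 0) = if i = e j then |s j| else 0 := by
            intro i
            by_cases hi : i = e j <;> simp [hi]
          simp only [this, Finset.sum_ite_eq']
          split_ifs
          · exact le_rfl
          · exact abs_nonneg _
  exact key.trans hup

end Pool.Agent.R309.UnitSum
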