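import Pool.Agent.R309.UnitSumD
import Pool.Agent.R309.UnitSumE

/-!
Units of a complex cubic field generated by a root of `X^3 + b X^2 + c X + 1`.
-/

set_option autoImplicit false

namespace Pool.Agent.R309.UnitSum

open NumberField Complex Module

section general

variable {K : Type*} [Field K] [NumberField K] (h3 : finrank ℚ K = 3) (σ : K →+* ℝ) (τ : K →+* ℂ)
  (hτ : ∃ x, (τ x).im ≠ 0)

include h3 hτ in
lemma univ_eq [DecidableEq (K →ₐ[ℚ] ℂ)] :
    (Finset.univ : Finset (K →ₐ[ℚ] ℂ)) =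
      {((ofRealHom.comp σ).toRatAlgHom), τ.toRatAlgHom, (((starRingEnd ℂ).comp τ).toRatAlgHom)} ∧
    ((ofRealHom.comp σ).toRatAlgHom) ≠ τ.toRatAlgHom ∧
    ((ofRealHom.comp σ).toRatAlgHom) ≠ (((starRingEnd ℂ).comp τ).toRatAlgHom) ∧
    τ.toRatAlgHom ≠ (((starRingEnd ℂ).comp τ).toRatAlgHom) := by
  obtain ⟨x, hx⟩ := hτ
  have n1 : ((ofRealHom.comp σ).toRatAlgHom) ≠ τ.toRatAlgHom := by
    intro h
    have := congrArg (fun φ => (φ x).im) h
    simp at this
    exact hx this.symm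
  have n2 : ((ofRealHom.comp σ).toRatAlgHom) ≠ (((starRingEnd ℂ).comp τ).toRatAlgHom) := by
    intro h
    have := congrArg (fun φ => (φ x).im) h
    simp at this
    exact hx this
  have n3 : τ.toRatAlgHom ≠ (((starRingEnd ℂ).comp τ).toRatAlgHom) := by
    intro h
    have := congrArg (fun φ => (φ x).im) h
    simp at this
    exact hx (by linarith)
  refine ⟨?_, n1, n2, n3⟩
  symm
  apply Finset.eq_univ_of_card
  rw [AlgHom.card, h3]
  rw [Finset.card_insert_of_notMem, Finset.card_insert_of_notMem, Finset.card_singleton]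
  · simpa using n3
  · simp only [Finset.mem_insert, Finset.mem_singleton, not_or]
    exact ⟨n1, n2⟩

include h3 hτ in
lemma trace_eq (x : K) : ((Algebra.trace ℚ K x : ℚ) : ℝ) = σ x + 2 * (τ x).re := by
  classical
  obtain ⟨hu, n1, n2, n3⟩ := univ_eq h3 σ τ hτ
  have h := trace_eq_sum_embeddings (K := ℚ) (L := K) ℂ (x := x)
  rw [hu, Finset.sum_insert, Finset.sum_insert, Finset.sum_singleton] at h
  · have h2 := congrArg Complex.re h
    simp at h2
    rw [h2]; ring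
  · simpa using n3
  · simp only [Finset.mem_insert, Finset.mem_singleton, not_or]
    exact ⟨n1, n2⟩

include h3 hτ in
lemma norm_eq (x : K) : ((Algebra.norm ℚ x : ℚ) : ℝ) = σ x * normSq (τ x) := by
  classical
  obtain ⟨hu, n1, n2, n3⟩ := univ_eq h3 σ τ hτ
  have h := Algebra.norm_eq_prod_embeddings (K := ℚ) (L := K) ℂ x
  rw [hu, Finset.prod_insert, Finset.prod_insert, Finset.prod_singleton] at h
  · have h1 : ((Algebra.norm ℚ x : ℚ) : ℂ) = ((σ x * normSq (τ x) : ℝ) : ℂ) := by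
      have e : (algebraMap ℚ ℂ) ((Algebra.norm ℚ) x) = ((Algebra.norm ℚ x : ℚ) : ℂ) := by simp
      rw [← e, h]
      simp only [RingHom.toRatAlgHom_apply, RingHom.comp_apply, ofRealHom_eq_coe]
      rw [mul_conj]
      push_cast
      ring
    exact_mod_cast h1
  · simpa using n3
  · simp only [Finset.mem_insert, Finset.mem_singleton, not_or]
    exact ⟨n1, n2⟩

lemma trace_int (x : 𝓞 K) : ∃ n : ℤ, (Algebra.trace ℚ K (x : K)) = (n : ℚ) := by
  have h : IsIntegral ℤ (Algebra.trace ℚ K (x : K)) :=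
    Algebra.isIntegral_trace (R := ℤ) (L := ℚ) (F := K) x.isIntegral_coe
  obtain ⟨n, hn⟩ := IsIntegrallyClosed.isIntegral_iff.mp h
  exact ⟨n, by rw [← hn]; simp⟩

include h3 hτ in
/-- A unit whose real conjugate lies in `(-1, 0)` gives a triple of roots. -/
lemma rt_of_unit (η : (𝓞 K)ˣ) (hneg : σ (η : K) < 0) (hgt : -1 < σ (η : K))
    (him : (τ (η : K)).im ≠ 0) : ∃ u v : ℤ, Rt u v (σ (η : K)) (τ (η : K)) := by
  obtain ⟨p, hp⟩ := trace_int (η : 𝓞 K)
  obtain ⟨q, hq⟩ := trace_int ((η⁻¹ : (𝓞 K)ˣ) : 𝓞 K)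
  have hp' := trace_eq h3 σ τ hτ (η : K)
  have hq' := trace_eq h3 σ τ hτ (((η⁻¹ : (𝓞 K)ˣ) : 𝓞 K) : K)
  rw [hp] at hp'
  rw [hq] at hq'
  have hN := Units.norm K η
  have hN' := norm_eq h3 σ τ hτ (η : K)
  have hz : τ (η : K) ≠ 0 := by
    intro h0; apply him; rw [h0]; simp
  have hpos : 0 < normSq (τ (η : K)) := normSq_pos.mpr hz
  have hnrm : σ (η : K) * normSq (τ (η : K)) = -1 := by
    rw [← hN']
    have h1 : ((Algebra.norm ℚ (η : K) : ℚ) : ℝ) < 0 := by
      rw [hN']; exact mul_neg_of_neg_of_pos hneg hpos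
    have h2 : Algebra.norm ℚ (η : K) < 0 := by exact_mod_cast h1
    rw [abs_of_neg h2] at hN
    have : Algebra.norm ℚ (η : K) = -1 := by linarith
    rw [this]; norm_num
  have hinv : (((η⁻¹ : (𝓞 K)ˣ) : 𝓞 K) : K) = ((η : K))⁻¹ := by
    apply eq_inv_of_mul_eq_one_left
    have : ((η⁻¹ : (𝓞 K)ˣ) : 𝓞 K) * (η : 𝓞 K) = 1 := by simp
    have h2 := congrArg (fun t : 𝓞 K => (t : K)) this
    simpa using h2
  rw [hinv, map_inv₀, map_inv₀] at hq'
  refine ⟨-p, -q, him, hneg, hgt, hnrm, ?_, ?_⟩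
  · push_cast
    push_cast at hp'
    rw [hp']
  · push_cast
    push_cast at hq'
    rw [hq']
    have hr : σ (η : K) ≠ 0 := hneg.ne
    have e1 : (σ (η : K))⁻¹ = -normSq (τ (η : K)) := by
      field_simp
      linarith
    have e2 : ((τ (η : K))⁻¹).re = -(σ (η : K)) * (τ (η : K)).re := by
      rw [inv_re, div_eq_iff hpos.ne']
      linear_combination ((τ (η : K)).re) * hnrm
    rw [e1, e2]
    ring

end general

end Pool.Agent.R309.UnitSum
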