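import Pool.Agent.R309.UnitSumF

set_option autoImplicit false

namespace Pool.Agent.R309.UnitSum

open NumberField Complex Module

/-- Vieta for a real and a non-real root of `X^3 + b X^2 + c X + 1`. -/
lemma rt_alpha {b c : ℤ} (hb : 1 ≤ b) (hc : b + 2 ≤ c) (hbc : b ^ 2 ≤ 3 * c) {a : ℝ} {y : ℂ}
    (ha : a ^ 3 + b * a ^ 2 + c * a + 1 = 0) (hy : y ^ 3 + b * y ^ 2 + c * y + 1 = 0)
    (him : y.im ≠ 0) : Rt b c a y := by
  set p := y.re with hp
  set q := y.im with hq
  have hyy : y = p + q * I := (re_add_im y).symm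
  have hb' : (1 : ℝ) ≤ b := by exact_mod_cast hb
  have hc' : (b : ℝ) + 2 ≤ c := by exact_mod_cast hc
  have hbc' : (b : ℝ) ^ 2 ≤ 3 * c := by exact_mod_cast hbc
  have e1 : p ^ 3 - 3 * p * q ^ 2 + b * (p ^ 2 - q ^ 2) + c * p + 1 = 0 := by
    have := congrArg Complex.re hy
    rw [hyy] at this
    simp [pow_succ] at this
    linarith
  have e2 : q * (3 * p ^ 2 - q ^ 2 + 2 * b * p + c) = 0 := by
    have := congrArg Complex.im hy
    rw [hyy] at this
    simp [pow_succ] at this
    linarith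
  have e3 : 3 * p ^ 2 - q ^ 2 + 2 * b * p + c = 0 := by
    rcases mul_eq_zero.mp e2 with h | h
    · exact absurd h him
    · exact h
  have hn : normSq y = p ^ 2 + q ^ 2 := by rw [normSq_apply]; ring
  have e4 : (b + 2 * p) * (p ^ 2 + q ^ 2) = 1 := by
    linear_combination p * e3 - e1
  have hqpos : 0 < q ^ 2 := by positivity
  have e5 : (a + b + 2 * p) * ((a - p) ^ 2 + q ^ 2) = 0 := by
    have hc2 : (c : ℝ) = q ^ 2 - 3 * p ^ 2 - 2 * b * p := by linarith
    rw [hc2] at ha
    linear_combination ha + e4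
  have e6 : a = -b - 2 * p := by
    rcases mul_eq_zero.mp e5 with h | h
    · linarith
    · nlinarith [sq_nonneg (a - p)]
  have hneg : a < 0 := by
    by_contra h
    push Not at h
    have : 0 < a ^ 3 + b * a ^ 2 + c * a + 1 := by
      have : 0 ≤ (c : ℝ) := by linarith
      positivity
    linarith
  have hgt : -1 < a := by
    by_contra h
    push Not at h
    have h1 : 0 ≤ (a ^ 2 - a + 1 + b * (a - 1) + c) := by
      nlinarith [sq_nonneg (3 * (a - 1) + 2 * b), sq_nonneg (a + 1)]
    have h2 : a ^ 3 + b * a ^ 2 + c * a + 1 =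
        (a + 1) * (a ^ 2 - a + 1 + b * (a - 1) + c) + (b - c) := by ring
    have h3 : (a + 1) * (a ^ 2 - a + 1 + b * (a - 1) + c) ≤ 0 :=
      mul_nonpos_of_nonpos_of_nonneg (by linarith) h1
    linarith
  refine ⟨him, hneg, hgt, ?_, ?_, ?_⟩
  · rw [hn, e6]; linarith
  · rw [e6]; ring
  · rw [hn, e6]; linarith

section general

variable {K : Type*} [Field K] [NumberField K] (h3 : finrank ℚ K = 3) (σ : K →+* ℝ) (τ : K →+* ℂ)
  (hτ : ∃ x, (τ x).im ≠ 0)

include h3 hτ in
/-- No unit of `K` gives a power relation. -/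
lemma no_power {b c : ℤ} (hN : NoRel b c) (α : K) (hα : Rt b c (σ α) (τ α)) (η : (𝓞 K)ˣ)
    (k : ℕ) (hk : k = 2 ∨ (Odd k ∧ 3 ≤ k)) : α ≠ (η : K) ^ k ∧ α ≠ -(η : K) ^ k := by
  -- it is enough to treat `η` with `σ η < 0`
  have key : ∀ η : (𝓞 K)ˣ, σ (η : K) < 0 → α ≠ (η : K) ^ k ∧ α ≠ -(η : K) ^ k := by
    intro η hneg
    rcases hk with rfl | ⟨hodd, hk3⟩
    · constructor
      · intro h
        have h1 := hα.neg
        rw [h, map_pow] at h1
        have := sq_nonneg (σ (η : K))
        linarith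
      · intro h
        have e1 : σ α = -(σ (η : K)) ^ 2 := by rw [h]; simp
        have e2 : τ α = -(τ (η : K)) ^ 2 := by rw [h]; simp
        have hgt : -1 < σ (η : K) := by
          have := hα.gt
          rw [e1] at this
          nlinarith
        have him : (τ (η : K)).im ≠ 0 := by
          intro h0
          apply hα.im
          rw [e2]
          simp [pow_two, h0]
        obtain ⟨u, v, hR⟩ := rt_of_unit h3 σ τ hτ η hneg hgt him
        exact (hN _ _ hα u v _ _ hR).1 ⟨e1, e2⟩
    · constructor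
      · intro h
        have e1 : σ α = (σ (η : K)) ^ k := by rw [h]; simp
        have e2 : τ α = (τ (η : K)) ^ k := by rw [h]; simp
        have hgt : -1 < σ (η : K) := by
          by_contra hc
          push Not at hc
          have h1 : (1 : ℝ) ≤ (-σ (η : K)) ^ k := one_le_pow₀ (by linarith)
          rw [hodd.neg_pow] at h1
          have := hα.gt
          rw [e1] at this
          linarith
        have him : (τ (η : K)).im ≠ 0 := by
          intro h0
          apply hα.im
          rw [e2]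
          have : τ (η : K) = ((τ (η : K)).re : ℂ) := by
            apply Complex.ext <;> simp [h0]
          rw [this, ← ofReal_pow, ofReal_im]
        obtain ⟨u, v, hR⟩ := rt_of_unit h3 σ τ hτ η hneg hgt him
        exact (hN _ _ hα u v _ _ hR).2 k hodd hk3 ⟨e1, e2⟩
      · intro h
        have e1 : σ α = -(σ (η : K)) ^ k := by rw [h]; simp
        have := hα.neg
        rw [e1, ← hodd.neg_pow] at this
        have h2 : 0 < (-σ (η : K)) ^ k := by
          have : 0 < -σ (η : K) := by linarith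
          positivity
        linarith
  have hne : σ (η : K) ≠ 0 := by
    rw [Ne, map_eq_zero]
    exact NumberField.Units.coe_ne_zero η
  rcases lt_or_gt_of_ne hne with hlt | hgt
  · exact key η hlt
  · have h1 := key (-η) (by
      have : ((-η : (𝓞 K)ˣ) : K) = -(η : K) := by simp
      rw [this, map_neg]; linarith)
    have e : ((-η : (𝓞 K)ˣ) : K) = -(η : K) := by simp
    rw [e] at h1
    rcases hk with rfl | ⟨hodd, hk3⟩
    · simpa using h1
    · rw [hodd.neg_pow, neg_neg] at h1
      exact ⟨h1.2, h1.1⟩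

include h3 hτ in
lemma rank_eq_one : NumberField.Units.rank K = 1 := by
  have hcx : 0 < InfinitePlace.nrComplexPlaces K := by
    refine (@Fintype.card_pos_iff _ (_)).mpr ⟨⟨InfinitePlace.mk τ, ?_⟩⟩
    rw [InfinitePlace.isComplex_mk_iff]
    intro h
    obtain ⟨x, hx⟩ := hτ
    rw [ComplexEmbedding.isReal_iff] at h
    have := RingHom.congr_fun h x
    rw [ComplexEmbedding.conjugate_coe_eq] at this
    have := congrArg Complex.im this
    simp at this
    exact hx (by linarith)
  have h1 := InfinitePlace.card_add_two_mul_card_eq_rank K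
  have h2 := InfinitePlace.card_eq_nrRealPlaces_add_nrComplexPlaces K
  unfold NumberField.Units.rank
  omega

include h3 hτ σ in
lemma exists_fund : ∃ η₀ : (𝓞 K)ˣ, ∀ x : (𝓞 K)ˣ, ∃ n : ℤ, x = η₀ ^ n ∨ x = -η₀ ^ n := by
  have hr := rank_eq_one h3 τ hτ
  let i0 : Fin (NumberField.Units.rank K) := ⟨0, by omega⟩
  refine ⟨NumberField.Units.fundSystem K i0, fun x => ?_⟩
  obtain ⟨⟨ζ, e⟩, hx, -⟩ := NumberField.Units.exist_unique_eq_mul_prod K x
  have hprod : ∏ i, NumberField.Units.fundSystem K i ^ (e i) =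
      NumberField.Units.fundSystem K i0 ^ (e i0) := by
    apply Fintype.prod_eq_single
    intro i hi
    exfalso
    apply hi
    apply Fin.ext
    have := i.2
    simp only [i0]
    omega
  have hx' : x = (ζ : (𝓞 K)ˣ) * NumberField.Units.fundSystem K i0 ^ (e i0) := by
    rw [← hprod]; exact hx
  have hζ : (ζ : (𝓞 K)ˣ) = 1 ∨ (ζ : (𝓞 K)ˣ) = -1 := by
    have h1 : (ζ : (𝓞 K)ˣ) ∈ CommGroup.torsion (𝓞 K)ˣ := ζ.2
    rw [CommGroup.mem_torsion, isOfFinOrder_iff_pow_eq_one] at h1
    obtain ⟨n, hn, h2⟩ := h1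
    have h3' : ((ζ : (𝓞 K)ˣ) : K) ^ n = 1 := by
      have := congrArg (fun t : (𝓞 K)ˣ => (t : K)) h2
      simpa using this
    have h4 : (σ ((ζ : (𝓞 K)ˣ) : K)) ^ n = 1 := by rw [← map_pow, h3', map_one]
    have h5 : |σ ((ζ : (𝓞 K)ˣ) : K)| = 1 := by
      have : |σ ((ζ : (𝓞 K)ˣ) : K)| ^ n = 1 := by rw [← abs_pow, h4, abs_one]
      exact (pow_eq_one_iff_of_nonneg (abs_nonneg _) hn.ne').mp this
    rcases (abs_eq (zero_le_one)).mp h5 with h6 | h6
    · left
      have h7 : ((ζ : (𝓞 K)ˣ) : K) = 1 := σ.injective (by rw [h6, map_one])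
      apply NumberField.Units.coe_injective K
      simpa using h7
    · right
      have h7 : ((ζ : (𝓞 K)ˣ) : K) = -1 := σ.injective (by rw [h6, map_neg, map_one])
      apply NumberField.Units.coe_injective K
      simpa using h7
  refine ⟨e i0, ?_⟩
  rcases hζ with h | h
  · left; rw [hx', h, one_mul]
  · right; rw [hx', h, neg_one_mul]

include h3 hτ in
/-- `α` generates the units up to sign. -/
theorem units_pow {b c : ℤ} (hN : NoRel b c) (α : (𝓞 K)ˣ) (hα : Rt b c (σ (α : K)) (τ (α : K)))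
    (x : (𝓞 K)ˣ) : ∃ n : ℤ, x = α ^ n ∨ x = -α ^ n := by
  obtain ⟨η, hη⟩ := exists_fund h3 σ τ hτ
  obtain ⟨m, hm⟩ := hη α
  -- `α = ± η ^ m`
  have hpow : ∀ (θ : (𝓞 K)ˣ) (k : ℕ), α = θ ^ k ∨ α = -θ ^ k → k ≤ 1 := by
    intro θ k h
    by_contra hk
    push Not at hk
    have h' : (α : K) = (θ : K) ^ k ∨ (α : K) = -(θ : K) ^ k := by
      rcases h with h | h
      · left; rw [h]; simp
      · right; rw [h]; simp
    rcases Nat.even_or_odd k with he | ho
    · obtain ⟨j, hj⟩ := he
      have := no_power h3 σ τ hτ hN (α : K) hα (θ ^ j) 2 (Or.inl rfl)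
      have e : ((θ ^ j : (𝓞 K)ˣ) : K) ^ 2 = (θ : K) ^ k := by
        rw [hj, NumberField.Units.coe_pow]; ring
      rw [e] at this
      rcases h' with h' | h'
      · exact this.1 h'
      · exact this.2 h'
    · have hk3 : 3 ≤ k := by
        obtain ⟨j, hj⟩ := ho
        omega
      have := no_power h3 σ τ hτ hN (α : K) hα θ k (Or.inr ⟨ho, hk3⟩)
      rcases h' with h' | h'
      · exact this.1 h'
      · exact this.2 h'
  have hm0 : m ≠ 0 := by
    rintro rfl
    rw [zpow_zero] at hm
    have h1 := hα.neg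
    have h2 := hα.gt
    rcases hm with h | h
    · rw [h] at h1; simp at h1; linarith
    · rw [h] at h2; simp at h2
  have hm1 : m = 1 ∨ m = -1 := by
    rcases lt_or_gt_of_ne hm0 with hlt | hgt
    · obtain ⟨k, hk⟩ : ∃ k : ℕ, m = -(k : ℤ) := ⟨m.natAbs, by omega⟩
      have : k ≤ 1 := by
        apply hpow (η⁻¹) k
        rw [hk] at hm
        simpa using hm
      omega
    · obtain ⟨k, hk⟩ : ∃ k : ℕ, m = (k : ℤ) := ⟨m.natAbs, by omega⟩
      have : k ≤ 1 := by
        apply hpow η k
        rw [hk] at hm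
        simpa using hm
      omega
  -- `η = ± α ^ m`
  have hηα : η = α ^ m ∨ η = -α ^ m := by
    rcases hm1 with rfl | rfl
    · rcases hm with h | h
      · left; rw [h]; simp
      · right; rw [h]; simp
    · rcases hm with h | h
      · left; rw [h]; simp
      · right; rw [h]; simp
  obtain ⟨n, hn⟩ := hη x
  refine ⟨m * n, ?_⟩
  have hsign : ∀ j : ℤ, (-α ^ m) ^ j = (α ^ m) ^ j ∨ (-α ^ m) ^ j = -(α ^ m) ^ j := by
    intro j
    rcases Int.even_or_odd j with he | ho
    · left; exact he.neg_zpow _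
    · right; exact ho.neg_zpow _
  rw [zpow_mul]
  rcases hηα with h | h
  · rw [h] at hn; exact hn
  · rw [h] at hn
    rcases hsign n with h2 | h2
    · rw [h2] at hn; exact hn
    · rw [h2, neg_neg] at hn
      exact hn.symm
end general

end Pool.Agent.R309.UnitSum
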