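import Pool.Agent.R309.UnitSumG

set_option autoImplicit false

namespace Pool.Agent.R309.UnitSum

open NumberField Complex Module Polynomial

/-- The cubic polynomial. -/
noncomputable def cub (b c : ℤ) : ℤ[X] := X ^ 3 + C b * X ^ 2 + C c * X + 1

lemma cub_monic (b c : ℤ) : (cub b c).Monic := by
  unfold cub
  monicity!

lemma cub_natDegree (b c : ℤ) : (cub b c).natDegree = 3 := by
  unfold cub
  compute_degree!

/-- over `ℚ` -/
noncomputable def cubQ (b c : ℤ) : ℚ[X] := (cub b c).map (Int.castRingHom ℚ)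

lemma cubQ_natDegree (b c : ℤ) : (cubQ b c).natDegree = 3 := by
  unfold cubQ
  rw [(cub_monic b c).natDegree_map, cub_natDegree]

lemma cubQ_monic (b c : ℤ) : (cubQ b c).Monic := (cub_monic b c).map _

lemma cubQ_irreducible {b c : ℤ} (hb : 1 ≤ b) (hc : b + 2 ≤ c) : Irreducible (cubQ b c) := by
  rw [Polynomial.irreducible_iff_roots_eq_zero_of_degree_le_three
    (by rw [cubQ_natDegree]; norm_num) (by rw [cubQ_natDegree])]
  apply Multiset.eq_zero_of_forall_notMem
  intro x hx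
  have hroot := (mem_roots'.mp hx).2
  have hae : aeval x (cub b c) = 0 := by
    rw [IsRoot.def, cubQ, eval_map] at hroot
    rw [aeval_def]
    exact hroot
  obtain ⟨n, hn⟩ := isInteger_of_is_root_of_monic (cub_monic b c) hae
  rw [← hn] at hae
  unfold cub at hae
  simp at hae
  have h2 : n ^ 3 + b * n ^ 2 + c * n + 1 = 0 := by exact_mod_cast hae
  have h3 : n * (-(n ^ 2 + b * n + c)) = 1 := by linear_combination -h2
  have hu : IsUnit n := IsUnit.of_mul_eq_one _ h3
  rcases Int.isUnit_iff.mp hu with rfl | rfl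
  · omega
  · omega

lemma eval_cubQ {b c : ℤ} {R : Type*} [CommRing R] (f : ℚ →+* R) (x : R) :
    (cubQ b c).eval₂ f x = x ^ 3 + b * x ^ 2 + c * x + 1 := by
  unfold cubQ cub
  rw [eval₂_map]
  simp only [eval₂_add, eval₂_mul, eval₂_pow, eval₂_X, eval₂_C, eval₂_one]
  simp

lemma exists_roots {b c : ℤ} (hb : 1 ≤ b) (hc : b + 2 ≤ c) (hbc : b ^ 2 < 3 * c) :
    ∃ (a : ℝ) (y : ℂ), a ^ 3 + b * a ^ 2 + c * a + 1 = 0 ∧
      y ^ 3 + b * y ^ 2 + c * y + 1 = 0 ∧ y.im ≠ 0 := by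
  have hb' : (1 : ℝ) ≤ b := by exact_mod_cast hb
  have hc' : (b : ℝ) + 2 ≤ c := by exact_mod_cast hc
  have hbc' : (b : ℝ) ^ 2 < 3 * c := by exact_mod_cast hbc
  have hcont : ContinuousOn (fun x : ℝ => x ^ 3 + b * x ^ 2 + c * x + 1) (Set.Icc (-1) 0) := by
    fun_prop
  have hiv := intermediate_value_Icc (show (-1 : ℝ) ≤ 0 by norm_num) hcont
  have h0 : (0 : ℝ) ∈ Set.Icc ((fun x : ℝ => x ^ 3 + b * x ^ 2 + c * x + 1) (-1))
      ((fun x : ℝ => x ^ 3 + b * x ^ 2 + c * x + 1) 0) := by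
    constructor <;> simp <;> linarith
  obtain ⟨a, ⟨ha1, ha2⟩, ha⟩ := hiv h0
  simp only at ha
  have hane : a ≠ 0 := by
    rintro rfl
    simp at ha
  set p := -(a + b) / 2 with hp
  set n := a ^ 2 + b * a + c with hn
  have han : a * n = -1 := by rw [hn]; linarith
  have hpos : 0 < n - p ^ 2 := by
    rw [hn, hp]
    nlinarith [sq_nonneg (3 * a + b)]
  set q := Real.sqrt (n - p ^ 2) with hq
  have hqq : q ^ 2 = n - p ^ 2 := Real.sq_sqrt hpos.le
  have hqne : q ≠ 0 := (Real.sqrt_pos.mpr hpos).ne'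
  refine ⟨a, p + q * I, ha, ?_, by simpa using hqne⟩
  have e1 : ((p : ℂ) + q * I) ^ 2 - 2 * p * (p + q * I) + n = 0 := by
    have : ((q : ℂ)) ^ 2 = n - p ^ 2 := by exact_mod_cast hqq
    linear_combination (q : ℂ) ^ 2 * I_sq - this
  have e2 : (a : ℂ) * n = -1 := by exact_mod_cast han
  have e3 : (b : ℂ) = -a - 2 * p := by
    have : (b : ℝ) = -a - 2 * p := by rw [hp]; ring
    exact_mod_cast this
  have e4 : (c : ℂ) = n - a ^ 2 - b * a := by
    have : (c : ℝ) = n - a ^ 2 - b * a := by rw [hn]; ring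
    exact_mod_cast this
  rw [e4, e3]
  linear_combination ((p : ℂ) + q * I - a) * e1 + e2

section core

variable {K : Type*} [Field K]

/-- Every family of integers is bounded below. -/
lemma exists_shift {n : ℕ} (m : Fin n → ℤ) : ∃ N : ℕ, ∀ i, 0 ≤ m i + N := by
  refine ⟨∑ i, (m i).natAbs, fun i => ?_⟩
  have := Finset.single_le_sum (f := fun i => (m i).natAbs) (fun _ _ => Nat.zero_le _)
    (Finset.mem_univ i)
  omega

/-- The lower bound for vanishing sums of powers of `α`. -/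
lemma core_lower {b c : ℤ} (hb : 1 ≤ b) (hc : b + 2 ≤ c) {α : K}
    (hdiv : ∀ f : ℤ[X], aeval α f = 0 → cub b c ∣ f) {n : ℕ} (s : Fin n → ℤ) (e : Fin n → ℕ)
    (hsum : ∑ i, (s i : K) * α ^ (e i) = 0)
    (hne : (∑ i, C (s i) * X ^ (e i) : ℤ[X]) ≠ 0) : b + c + 2 ≤ ∑ i, |s i| := by
  have h1 : aeval α (∑ i, C (s i) * X ^ (e i) : ℤ[X]) = 0 := by
    rw [map_sum]
    simpa using hsum
  obtain ⟨g, hg⟩ := hdiv _ h1
  have hg0 : g ≠ 0 := by
    rintro rfl
    rw [mul_zero] at hg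
    exact hne hg
  exact len_lower (by omega) hc g hg0 s e (by rw [hg, cub])

lemma sum_zero_shift {α : K} (hα : α ≠ 0) {n : ℕ} (s : Fin n → ℤ) (m : Fin n → ℤ)
    (hsum : ∑ i, (s i : K) * α ^ (m i) = 0) (N : ℕ) (hN : ∀ i, 0 ≤ m i + N) :
    ∑ i, (s i : K) * α ^ ((m i + N).toNat) = 0 := by
  have : ∑ i, (s i : K) * α ^ ((m i + N).toNat) = (∑ i, (s i : K) * α ^ (m i)) * α ^ (N : ℤ) := by
    rw [Finset.sum_mul]
    refine Finset.sum_congr rfl fun i _ => ?_
    rw [mul_assoc, ← zpow_add₀ hα, ← zpow_natCast, Int.toNat_of_nonneg (hN i)]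
  rw [this, hsum, zero_mul]

lemma lower_odd {b c : ℤ} (hb : 1 ≤ b) (hc : b + 2 ≤ c) {α : K} (hα : α ≠ 0)
    (hdiv : ∀ f : ℤ[X], aeval α f = 0 → cub b c ∣ f) {n : ℕ} (hn : Odd n) (s : Fin n → ℤ)
    (hs : ∀ i, s i = 1 ∨ s i = -1) (m : Fin n → ℤ)
    (hsum : ∑ i, (s i : K) * α ^ (m i) = 0) : b + c + 2 ≤ n := by
  obtain ⟨N, hN⟩ := exists_shift m
  have h1 := sum_zero_shift hα s m hsum N hN
  have habs : ∑ i, |s i| = n := by
    have : ∀ i, |s i| = 1 := by
      intro i; rcases hs i with h | h <;> simp [h]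
    simp [this]
  rw [← habs]
  apply core_lower hb hc hdiv s _ h1
  intro h0
  have h2 := congrArg (eval 1) h0
  rw [eval_finsetSum] at h2
  simp at h2
  have h3 : (∑ i, s i) % 2 = 1 := by
    have : ∀ i, s i ≡ 1 [ZMOD 2] := by
      intro i; rcases hs i with h | h <;> rw [h] <;> decide
    have h4 : (∑ i, s i) ≡ ∑ _i : Fin n, (1 : ℤ) [ZMOD 2] := by
      exact Int.ModEq.sum (fun i _ => this i)
    simp at h4
    obtain ⟨j, hj⟩ := hn
    have h5 := h4
    unfold Int.ModEq at h5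
    omega
  omega

lemma lower_even {b c : ℤ} (hb : 1 ≤ b) (hc : b + 2 ≤ c) {α : K} (hα : α ≠ 0)
    (hdiv : ∀ f : ℤ[X], aeval α f = 0 → cub b c ∣ f) {n : ℕ} (hn : 3 ≤ n) (s : Fin n → ℤ)
    (hs : ∀ i, s i = 1 ∨ s i = -1) (m : Fin n → ℤ)
    (hsum : ∑ i, (s i : K) * α ^ (m i) = 0)
    (hprop : ∀ i j, i ≠ j → (s i : K) * α ^ (m i) + (s j : K) * α ^ (m j) ≠ 0) :
    b + c + 2 ≤ n := by
  obtain ⟨N, hN⟩ := exists_shift m
  have h1 := sum_zero_shift hα s m hsum N hN
  have habs : ∑ i, |s i| = n := by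
    have : ∀ i, |s i| = 1 := by
      intro i; rcases hs i with h | h <;> simp [h]
    simp [this]
  rw [← habs]
  apply core_lower hb hc hdiv s _ h1
  intro h0
  let i0 : Fin n := ⟨0, by omega⟩
  have h2 := congrArg (fun f : ℤ[X] => f.coeff ((m i0 + N).toNat)) h0
  simp only [finsetSum_coeff, coeff_C_mul_X_pow, coeff_zero] at h2
  -- every index with the same exponent has the same sign
  have hsame : ∀ j, (m i0 + N).toNat = (m j + N).toNat → s j = s i0 := by
    intro j hj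
    by_contra hne
    have hij : i0 ≠ j := by
      rintro rfl; exact hne rfl
    apply hprop i0 j hij
    have hm : m i0 = m j := by
      have := hN i0; have := hN j; omega
    have hss : s j = -s i0 := by
      rcases hs i0 with h | h <;> rcases hs j with h' | h' <;> omega
    rw [hm, hss]; push_cast; ring
  have h3 : ∀ j, (if (m i0 + N).toNat = (m j + N).toNat then s j else 0) =
      s i0 * (if (m i0 + N).toNat = (m j + N).toNat then 1 else 0) := by
    intro j
    split_ifs with h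
    · rw [hsame j h, mul_one]
    · simp
  simp only [h3] at h2
  rw [← Finset.mul_sum] at h2
  have h4 : (1 : ℤ) ≤ ∑ j, (if (m i0 + N).toNat = (m j + N).toNat then (1 : ℤ) else 0) := by
    have := Finset.single_le_sum (f := fun j => (if (m i0 + N).toNat = (m j + N).toNat then (1 : ℤ) else 0))
      (fun j _ => by split_ifs <;> norm_num) (Finset.mem_univ i0)
    simpa using this
  rcases hs i0 with h | h <;> rw [h] at h2 <;> omega

end core

end Pool.Agent.R309.UnitSum
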