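import Pool.Agent.R309.UnitSumH

set_option autoImplicit false

namespace Pool.Agent.R309.UnitSum

open NumberField Complex Module Polynomial

/-- exponents of the relation `α^3 + b α^2 + c α + 1 = 0`, written with repetitions -/
def ex (b c : ℕ) (i : ℕ) : ℕ := if i < 1 then 3 else if i < 1 + b then 2 else if i < 1 + b + c then 1 else 0

lemma sum_ex {K : Type*} [Field K] (α : K) (b c : ℕ) :
    ∑ i ∈ Finset.range (1 + b + c + 1), α ^ (ex b c i) = α ^ 3 + b * α ^ 2 + c * α + 1 := by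
  rw [Finset.sum_range_add, Finset.sum_range_add, Finset.sum_range_add]
  have h1 : ∑ x ∈ Finset.range 1, α ^ ex b c x = α ^ 3 := by simp [ex]
  have h2 : ∑ x ∈ Finset.range b, α ^ ex b c (1 + x) = b * α ^ 2 := by
    have : ∀ x ∈ Finset.range b, α ^ ex b c (1 + x) = α ^ 2 := by
      intro x hx
      rw [Finset.mem_range] at hx
      unfold ex
      rw [if_neg (by omega), if_pos (by omega)]
    rw [Finset.sum_congr rfl this]; simp
  have h3 : ∑ x ∈ Finset.range c, α ^ ex b c (1 + b + x) = c * α := by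
    have : ∀ x ∈ Finset.range c, α ^ ex b c (1 + b + x) = α := by
      intro x hx
      rw [Finset.mem_range] at hx
      unfold ex
      rw [if_neg (by omega), if_neg (by omega), if_pos (by omega), pow_one]
    rw [Finset.sum_congr rfl this]; simp
  have h4 : ∑ x ∈ Finset.range 1, α ^ ex b c (1 + b + c + x) = 1 := by
    have : ∀ x ∈ Finset.range 1, α ^ ex b c (1 + b + c + x) = 1 := by
      intro x hx
      rw [Finset.mem_range] at hx
      unfold ex
      rw [if_neg (by omega), if_neg (by omega), if_neg (by omega), pow_zero]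
    rw [Finset.sum_congr rfl this]; simp
  rw [h1, h2, h3, h4]

/-- The field: all facts needed for the computation of the shortest vanishing unit sums. -/
theorem exists_field {b c : ℤ} (hb : 1 ≤ b) (hc : b + 2 ≤ c) (hbc : b ^ 2 < 3 * c)
    (hN : NoRel b c) : ∃ (K : Type) (_ : Field K) (_ : NumberField K) (α : (𝓞 K)ˣ),
      (α : K) ^ 3 + b * (α : K) ^ 2 + c * (α : K) + 1 = 0 ∧
      (∀ f : ℤ[X], aeval (α : K) f = 0 → cub b c ∣ f) ∧
      ∀ x : (𝓞 K)ˣ, ∃ n : ℤ, x = α ^ n ∨ x = -α ^ n := by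
  have hirr := cubQ_irreducible hb hc
  have : Fact (Irreducible (cubQ b c)) := ⟨hirr⟩
  let K := AdjoinRoot (cubQ b c)
  have hne : cubQ b c ≠ 0 := hirr.ne_zero
  have : FiniteDimensional ℚ K := (AdjoinRoot.powerBasis hne).finite
  have : CharZero K := charZero_of_injective_algebraMap (algebraMap ℚ K).injective
  have : NumberField K := NumberField.mk
  have h3 : finrank ℚ K = 3 := by
    rw [(AdjoinRoot.powerBasis hne).finrank, AdjoinRoot.powerBasis_dim, cubQ_natDegree]
  obtain ⟨a, y, ha, hy, him⟩ := exists_roots hb hc hbc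
  let σ : K →+* ℝ := AdjoinRoot.lift (algebraMap ℚ ℝ) a (by rw [eval_cubQ]; exact ha)
  let τ : K →+* ℂ := AdjoinRoot.lift (algebraMap ℚ ℂ) y (by rw [eval_cubQ]; exact hy)
  let α0 : K := AdjoinRoot.root (cubQ b c)
  have hσ : σ α0 = a := AdjoinRoot.lift_root _
  have hτ' : τ α0 = y := AdjoinRoot.lift_root _
  have hτ : ∃ x, (τ x).im ≠ 0 := ⟨α0, by rw [hτ']; exact him⟩
  have hrel : α0 ^ 3 + b * α0 ^ 2 + c * α0 + 1 = 0 := by
    have h := AdjoinRoot.eval₂_root (cubQ b c)
    rwa [eval_cubQ] at h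
  have hint : IsIntegral ℤ α0 := by
    refine ⟨cub b c, cub_monic b c, ?_⟩
    unfold cub
    simp only [eval₂_add, eval₂_mul, eval₂_pow, eval₂_X, eval₂_C, eval₂_one]
    simpa using hrel
  let αO : 𝓞 K := ⟨α0, hint⟩
  have hrelO : αO ^ 3 + b * αO ^ 2 + c * αO + 1 = 0 := by
    apply RingOfIntegers.coe_injective
    simp only [map_add, map_mul, map_pow, map_one, map_zero, map_intCast]
    exact hrel
  let α : (𝓞 K)ˣ := ⟨αO, -(αO ^ 2 + b * αO + c), by linear_combination -hrelO,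
    by linear_combination -hrelO⟩
  have hαK : ((α : (𝓞 K)ˣ) : K) = α0 := rfl
  have hdiv : ∀ f : ℤ[X], aeval α0 f = 0 → cub b c ∣ f := by
    intro f hf
    rw [← Polynomial.map_dvd_map (Int.castRingHom ℚ) Int.cast_injective (cub_monic b c)]
    have h1 : AdjoinRoot.mk (cubQ b c) (f.map (Int.castRingHom ℚ)) = 0 := by
      rw [← AdjoinRoot.aeval_eq]
      rw [aeval_def, eval₂_map]
      rw [aeval_def] at hf
      have hcomp : (algebraMap ℚ K).comp (Int.castRingHom ℚ) = algebraMap ℤ K :=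
        RingHom.ext_int _ _
      exact (congrArg (fun g : ℤ →+* K => eval₂ g α0 f) hcomp).trans hf
    rw [AdjoinRoot.mk_eq_zero] at h1
    exact h1
  have hR : Rt b c (σ (α : K)) (τ (α : K)) := by
    rw [hαK, hσ, hτ']
    exact rt_alpha hb hc hbc.le ha hy him
  exact ⟨K, inferInstance, inferInstance, α, by rw [hαK]; exact hrel, by rw [hαK]; exact hdiv,
    units_pow h3 σ τ hτ hN α hR⟩

section final

variable {K : Type*} [Field K] [NumberField K] {b c : ℤ} {α : (𝓞 K)ˣ}

lemma repr (hun : ∀ x : (𝓞 K)ˣ, ∃ n : ℤ, x = α ^ n ∨ x = -α ^ n) {n : ℕ} (e : Fin n → (𝓞 K)ˣ) :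
    ∃ (s : Fin n → ℤ) (m : Fin n → ℤ), (∀ i, s i = 1 ∨ s i = -1) ∧
      ∀ i, ((e i : (𝓞 K)ˣ) : K) = (s i : K) * (α : K) ^ (m i) := by
  choose m hm using fun i => hun (e i)
  have : ∀ i, ∃ s : ℤ, (s = 1 ∨ s = -1) ∧ ((e i : (𝓞 K)ˣ) : K) = (s : K) * (α : K) ^ (m i) := by
    intro i
    rcases hm i with h | h
    · exact ⟨1, Or.inl rfl, by rw [h, NumberField.Units.coe_zpow]; simp⟩
    · exact ⟨-1, Or.inr rfl, by rw [h]; simp [NumberField.Units.coe_zpow]⟩
  choose s hs using this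
  exact ⟨s, m, fun i => (hs i).1, fun i => (hs i).2⟩

theorem odd_bound (hb : 1 ≤ b) (hc : b + 2 ≤ c)
    (hdiv : ∀ f : ℤ[X], aeval (α : K) f = 0 → cub b c ∣ f)
    (hun : ∀ x : (𝓞 K)ˣ, ∃ n : ℤ, x = α ^ n ∨ x = -α ^ n) {n : ℕ} (hn : Odd n)
    (e : Fin n → (𝓞 K)ˣ) (hsum : ∑ i, ((e i : (𝓞 K)ˣ) : K) = 0) : b + c + 2 ≤ n := by
  obtain ⟨s, m, hs, he⟩ := repr hun e
  apply lower_odd hb hc (NumberField.Units.coe_ne_zero α) hdiv hn s hs m
  rw [← hsum]
  exact Finset.sum_congr rfl fun i _ => (he i).symm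

theorem even_bound (hb : 1 ≤ b) (hc : b + 2 ≤ c)
    (hdiv : ∀ f : ℤ[X], aeval (α : K) f = 0 → cub b c ∣ f)
    (hun : ∀ x : (𝓞 K)ˣ, ∃ n : ℤ, x = α ^ n ∨ x = -α ^ n) {n : ℕ} (hn : 3 ≤ n)
    (e : Fin n → (𝓞 K)ˣ) (hsum : ∑ i, ((e i : (𝓞 K)ˣ) : K) = 0)
    (hprop : ∀ I : Finset (Fin n), I.Nonempty → I ≠ Finset.univ →
      ∑ i ∈ I, ((e i : (𝓞 K)ˣ) : K) ≠ 0) : b + c + 2 ≤ n := by
  obtain ⟨s, m, hs, he⟩ := repr hun e
  apply lower_even hb hc (NumberField.Units.coe_ne_zero α) hdiv hn s hs m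
  · rw [← hsum]
    exact Finset.sum_congr rfl fun i _ => (he i).symm
  · intro i j hij h
    apply hprop {i, j} ⟨i, by simp⟩
    · intro hu
      have h1 := congrArg Finset.card hu
      rw [Finset.card_pair hij, Finset.card_univ, Fintype.card_fin] at h1
      omega
    · rw [Finset.sum_pair hij, he i, he j, h]

theorem attained (hb : 1 ≤ b) (hc : b + 2 ≤ c)
    (hrel : (α : K) ^ 3 + b * (α : K) ^ 2 + c * (α : K) + 1 = 0)
    (hdiv : ∀ f : ℤ[X], aeval (α : K) f = 0 → cub b c ∣ f) {n : ℕ} (hn : (n : ℤ) = b + c + 2) :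
    ∃ e : Fin n → (𝓞 K)ˣ, ∑ i, ((e i : (𝓞 K)ˣ) : K) = 0 ∧
      ∀ I : Finset (Fin n), I.Nonempty → I ≠ Finset.univ →
        ∑ i ∈ I, ((e i : (𝓞 K)ˣ) : K) ≠ 0 := by
  obtain ⟨b', rfl⟩ : ∃ b' : ℕ, b = b' := ⟨b.toNat, by omega⟩
  obtain ⟨c', rfl⟩ : ∃ c' : ℕ, c = c' := ⟨c.toNat, by omega⟩
  have hn' : n = 1 + b' + c' + 1 := by omega
  refine ⟨fun i => α ^ (ex b' c' i), ?_, ?_⟩
  · have h1 : ∑ i : Fin n, (((α ^ (ex b' c' i) : (𝓞 K)ˣ)) : K) =
        ∑ i ∈ Finset.range n, (α : K) ^ (ex b' c' i) := by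
      rw [← Fin.sum_univ_eq_sum_range (fun i => (α : K) ^ (ex b' c' i)) n]
      exact Finset.sum_congr rfl fun i _ => by simp
    rw [h1, hn', sum_ex]
    simpa using hrel
  · intro I hI hIu h0
    have hcore := core_lower (b := b') (c := c') hb hc hdiv
      (fun i : Fin n => if i ∈ I then (1 : ℤ) else 0) (fun i => ex b' c' i) (by
        rw [← h0]
        rw [← Finset.sum_filter_add_sum_filter_not Finset.univ (fun i => i ∈ I)]
        have e1 : (Finset.univ.filter (fun i : Fin n => i ∈ I)) = I := by ext; simp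
        have e2 : ∑ i ∈ Finset.univ.filter (fun i : Fin n => ¬ i ∈ I),
            (((if i ∈ I then (1 : ℤ) else 0 : ℤ)) : K) * (α : K) ^ (ex b' c' i) = 0 := by
          apply Finset.sum_eq_zero
          intro i hi
          rw [Finset.mem_filter] at hi
          simp [hi.2]
        rw [e2, add_zero, e1]
        refine Finset.sum_congr rfl fun i hi => ?_
        simp [hi]) (by
        intro h2
        have h3 := congrArg (eval 1) h2
        rw [eval_finsetSum] at h3
        simp only [eval_mul, eval_C, eval_pow, eval_X, one_pow, mul_one, eval_zero] at h3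
        simp at h3
        exact hI.ne_empty h3)
    have habs : ∑ i : Fin n, |(if i ∈ I then (1 : ℤ) else 0)| = I.card := by
      have : ∀ i : Fin n, |(if i ∈ I then (1 : ℤ) else 0)| = if i ∈ I then 1 else 0 := by
        intro i; split_ifs <;> simp
      simp [this]
    rw [habs] at hcore
    have hlt : I.card < n := by
      have := Finset.card_lt_univ_of_notMem (s := I) (x := (by
        have : ∃ x, x ∉ I := by
          by_contra hh
          push Not at hh
          exact hIu (Finset.eq_univ_of_forall hh)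
        exact this.choose)) (by
          have : ∃ x, x ∉ I := by
            by_contra hh
            push Not at hh
            exact hIu (Finset.eq_univ_of_forall hh)
          exact this.choose_spec)
      simpa using this
    omega

end final

end Pool.Agent.R309.UnitSum
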